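import Pool.Agent.H260Z.DAD.Grp

/-!
Periodic colourings with thirteen colours and bounded monochromatic components.
-/

set_option autoImplicit false

namespace Pool.Agent.H260Z.DAD

open Set Relation

def near (N t : ℕ) (z : ℤ) : Prop := ∃ n : ℤ, (z - n * N).natAbs ≤ t

def gap (k j : ℕ) (z : ℤ) : Prop := near (NN k) (2 * ((j + 1) * k)) z ∧ ¬ near (NN k) (2 * (j * k)) z

def gapE (k j : ℕ) (v : E) : Prop := gap k j v.1 ∨ gap k j v.2 ∨ gap k j (v.1 - v.2)

def gapL (k j : ℕ) (u : L) : Prop := gapE k j u.c1 ∨ gapE k j u.c2 ∨ gapE k j u.c3 ∨ gapE k j u.c4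

noncomputable def per (k : ℕ) (u : L) : Fin 13 := Classical.epsilon fun j : Fin 13 => ¬ gapL k j u

theorem near_mono {N t t' : ℕ} {z : ℤ} (h : near N t z) (le : t ≤ t') : near N t' z :=
  h.imp fun _ hn => hn.trans le

theorem gap_uniq {k j j' : ℕ} {z : ℤ} (h : gap k j z) (h' : gap k j' z) : j = j' := by
  by_contra ne
  rcases Nat.lt_or_gt_of_ne ne with lt | lt
  · exact h'.2 (near_mono h.1 (Nat.mul_le_mul_left _ (Nat.mul_le_mul_right _ lt)))
  · exact h.2 (near_mono h'.1 (Nat.mul_le_mul_left _ (Nat.mul_le_mul_right _ lt)))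

theorem per_spec (k : ℕ) (u : L) : ¬ gapL k (per k u) u := by
  refine Classical.epsilon_spec (p := fun j : Fin 13 => ¬ gapL k j u) ?_
  by_contra h
  let fm : Fin 12 → ℤ := ![u.c1.1, u.c1.2, u.c1.1 - u.c1.2, u.c2.1, u.c2.2, u.c2.1 - u.c2.2,
    u.c3.1, u.c3.2, u.c3.1 - u.c3.2, u.c4.1, u.c4.2, u.c4.1 - u.c4.2]
  have : ∀ j : Fin 13, ∃ i, gap k j (fm i) := by
    intro j
    have : gapL k j u := by_contra fun x => h ⟨j, x⟩
    rcases this with (a | a | a) | (a | a | a) | (a | a | a) | (a | a | a)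
    exacts [⟨0, a⟩, ⟨1, a⟩, ⟨2, a⟩, ⟨3, a⟩, ⟨4, a⟩, ⟨5, a⟩, ⟨6, a⟩, ⟨7, a⟩, ⟨8, a⟩, ⟨9, a⟩,
      ⟨10, a⟩, ⟨11, a⟩]
  choose i hi using this
  obtain ⟨a, b, ne, e⟩ := Fintype.exists_ne_map_eq_of_card_lt i (by simp)
  exact ne (Fin.ext (gap_uniq (hi a) (e ▸ hi b)))

theorem near_shift (N t : ℕ) (z a w : ℤ) (e : w = N * a + z ∨ w = N * a - z) :
    near N t w ↔ near N t z := by
  rcases e with rfl | rfl
  · exact ⟨fun ⟨n, h⟩ => ⟨n - a, by convert h using 2; ring⟩,
      fun ⟨n, h⟩ => ⟨n + a, by convert h using 2; ring⟩⟩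
  · exact ⟨fun ⟨n, h⟩ => ⟨a - n, by rw [← Int.natAbs_neg]; convert h using 2; ring⟩,
      fun ⟨n, h⟩ => ⟨a - n, by rw [← Int.natAbs_neg]; convert h using 2; ring⟩⟩

theorem gap_shift (k j : ℕ) (z a w : ℤ) (e : w = NN k * a + z ∨ w = NN k * a - z) :
    gap k j w ↔ gap k j z := by
  unfold gap
  rw [near_shift _ _ z a w e, near_shift _ _ z a w e]

theorem gapE_add (k j : ℕ) (a v : E) : gapE k j ((NN k : ℤ) • a + v) ↔ gapE k j v := by
  unfold gapE
  rw [gap_shift k j v.1 a.1 ((NN k : ℤ) • a + v).1 (Or.inl rfl),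
    gap_shift k j v.2 a.2 ((NN k : ℤ) • a + v).2 (Or.inl rfl),
    gap_shift k j (v.1 - v.2) (a.1 - a.2) (((NN k : ℤ) • a + v).1 - ((NN k : ℤ) • a + v).2)
      (Or.inl (by simp; ring))]

theorem gapE_rot (k j : ℕ) (v : E) : gapE k j (rot v) ↔ gapE k j v := by
  unfold gapE
  rw [gap_shift k j v.2 0 (rot v).1 (Or.inr (by simp [rot])),
    gap_shift k j v.1 0 ((rot v).1 - (rot v).2) (Or.inr (by simp only [rot]; ring))]
  show _ ∨ gap k j (v.1 - v.2) ∨ _ ↔ _
  tauto

theorem gapE_R (k j : ℕ) (p : ZMod 3) (v : E) : gapE k j (R p v) ↔ gapE k j v := by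
  rcases z3 p with rfl | rfl | rfl <;> simp only [R0, R1, R2, gapE_rot]

theorem per_inv (k m : ℕ) (a v : L) (h : k ≤ m) : per k (scale m a * v) = per k v := by
  have e : (NN m : ℤ) = NN k * 4 ^ (m - k) := by
    simp only [NN]
    push_cast
    rw [← pow_add]
    congr 1
    omega
  unfold per
  congr 1
  funext j
  simp only [gapL, mul1, mul2, mul3, mul4, scale_eq]
  rw [e]
  simp only [mul_smul, gapE_add, gapE_R]

theorem NN_big (k : ℕ) : 49 * k < NN k := by
  have := Nat.lt_pow_self (n := k) (show 1 < 4 by norm_num)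
  unfold NN
  rw [pow_add]
  omega

theorem form_bd (k : ℕ) (F : L → ℤ) (h1 : ∀ u v, (F v - F u).natAbs ≤ len (u⁻¹ * v))
    (h2 : ∀ u j, gap k j (F u) → gapL k j u) (u v : L)
    (c : ReflTransGen (fun u v => len (u⁻¹ * v) ≤ k ∧ per k u = per k v) u v) :
    (F v - F u).natAbs ≤ NN k := by
  have big := NN_big k
  have ng : ∀ w, per k w = per k u → near (NN k) (2 * ((per k u + 1) * k)) (F w) →
      near (NN k) (2 * (per k u * k)) (F w) := by
    intro w e h
    by_contra x
    have := per_spec k w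
    rw [e] at this
    exact this (h2 _ _ ⟨h, x⟩)
  have jk : (per k u : ℕ) * k ≤ 12 * k := Nat.mul_le_mul_right _ (by have := (per k u).2; omega)
  rw [add_mul, one_mul] at ng
  generalize (per k u : ℕ) * k = a at ng jk
  have tri : ∀ n n' : ℤ, n' * NN k + NN k ≤ n * NN k ∨ n' = n ∨ n * NN k + NN k ≤ n' * NN k := by
    intro n n'
    rcases lt_trichotomy n' n with h | h | h
    · left; nlinarith
    · right; left; exact h
    · right; right; nlinarith
  by_cases k0 : near (NN k) (2 * a) (F u)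
  · obtain ⟨n, hn⟩ := k0
    have : per k v = per k u ∧ (F v - n * NN k).natAbs ≤ 2 * a := by
      induction c with
      | refl => exact ⟨rfl, hn⟩
      | @tail b c _ s ih =>
        have e : per k c = per k u := s.2.symm.trans ih.1
        have d := (h1 b c).trans s.1
        obtain ⟨n', hn'⟩ := ng c e ⟨n, by have := ih.2; omega⟩
        refine ⟨e, ?_⟩
        have := ih.2
        rcases tri n n' with t | t | t
        · omega
        · rw [← t]; exact hn'
        · omega
    omega
  · have far : ∀ w, per k w = per k u → ∀ n : ℤ, n * NN k + 2 * a < F w →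
        F w + 2 * a < n * NN k + NN k →
        n * NN k + 2 * (a + k) < F w ∧ F w + 2 * (a + k) < n * NN k + NN k := by
      intro w e n l1 l2
      have nn : ¬ near (NN k) (2 * (a + k)) (F w) := by
        intro x
        obtain ⟨n', hn'⟩ := ng w e x
        rcases tri n n' with t | t | t
        · omega
        · rw [t] at hn'; omega
        · omega
      constructor
      · by_contra x
        exact nn ⟨n, by omega⟩
      · by_contra x
        exact nn ⟨n + 1, by rw [add_mul, one_mul]; omega⟩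
    have m1 := Int.emod_nonneg (F u) (show (NN k : ℤ) ≠ 0 by omega)
    have m2 := Int.emod_lt_of_pos (F u) (show (0 : ℤ) < NN k by omega)
    have m3 := Int.ediv_mul_add_emod (F u) (NN k)
    generalize F u / NN k = n at m3
    have st := far u rfl n (by by_contra x; exact k0 ⟨n, by omega⟩)
      (by by_contra x; exact k0 ⟨n + 1, by rw [add_mul, one_mul]; omega⟩)
    have : per k v = per k u ∧
        (n * NN k + 2 * (a + k) < F v ∧ F v + 2 * (a + k) < n * NN k + NN k) := by
      induction c with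
      | refl => exact ⟨rfl, st⟩
      | @tail b c _ s ih =>
        have e : per k c = per k u := s.2.symm.trans ih.1
        have d := (h1 b c).trans s.1
        have := ih.2
        exact ⟨e, far c e n (by omega) (by omega)⟩
    omega

theorem coord_bd (k : ℕ) (P : L → E) (h1 : ∀ u v, nrm (P v - P u) ≤ len (u⁻¹ * v))
    (h2 : ∀ u j, gapE k j (P u) → gapL k j u) (u v : L)
    (c : ReflTransGen (fun u v => len (u⁻¹ * v) ≤ k ∧ per k u = per k v) u v) :
    nrm (P v - P u) ≤ NN k := by
  have a1 := form_bd k (fun u => (P u).1)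
    (fun u v => le_trans ((le_max_left _ _).trans (le_max_left _ _)) (h1 u v))
    (fun u j h => h2 u j (Or.inl h)) u v c
  have a2 := form_bd k (fun u => (P u).2)
    (fun u v => le_trans ((le_max_right _ _).trans (le_max_left _ _)) (h1 u v))
    (fun u j h => h2 u j (Or.inr (Or.inl h))) u v c
  have e : ∀ u v, (P v).1 - (P v).2 - ((P u).1 - (P u).2) = (P v - P u).1 - (P v - P u).2 := by
    intro u v
    simp only [Prod.fst_sub, Prod.snd_sub]
    ring
  have a3 := form_bd k (fun u => (P u).1 - (P u).2)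
    (fun u v => by rw [e]; exact le_trans (le_max_right _ _) (h1 u v))
    (fun u j h => h2 u j (Or.inr (Or.inr h))) u v c
  rw [e] at a3
  exact max_le (max_le a1 a2) a3

theorem per_bd (k : ℕ) (u v : L)
    (c : ReflTransGen (fun u v => len (u⁻¹ * v) ≤ k ∧ per k u = per k v) u v) :
    len (u⁻¹ * v) ≤ NN k := by
  rw [len_diff]
  refine max_le (max_le ?_ ?_) (max_le ?_ ?_)
  · exact coord_bd k L.c1 (fun u v => by rw [len_diff]; omega) (fun u j h => Or.inl h) u v c
  · exact coord_bd k L.c2 (fun u v => by rw [len_diff]; omega)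
      (fun u j h => Or.inr (Or.inl h)) u v c
  · exact coord_bd k L.c3 (fun u v => by rw [len_diff]; omega)
      (fun u j h => Or.inr (Or.inr (Or.inl h))) u v c
  · exact coord_bd k L.c4 (fun u v => by rw [len_diff]; omega)
      (fun u j h => Or.inr (Or.inr (Or.inr h))) u v c

end Pool.Agent.H260Z.DAD
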