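import Pool.Agent.H260Z.DAD.Defs

/-!
A self-similar group with periodic colourings and a fixed component property gives a
transformation groupoid of finite dynamic asymptotic dimension without finite dynamical complexity.
-/

set_option autoImplicit false

namespace Pool.Agent.H260Z.DAD

open Set Relation Topology Filter

section transf

variable (Γ X : Type) [Group Γ] [TopologicalSpace Γ] [DiscreteTopology Γ] [MulAction Γ X]
  [TopologicalSpace X] [ContinuousConstSMul Γ X]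

theorem cont_act : Continuous fun a : Γ × X => a.1 • a.2 :=
  continuous_prod_of_discrete_left.2 fun g => continuous_const_smul g

theorem lh_snd : IsLocalHomeomorph (Prod.snd : Γ × X → X) := by
  intro a
  let e : OpenPartialHomeomorph (Γ × X) X :=
    { toFun := Prod.snd
      invFun := fun y => (a.1, y)
      source := {a.1} ×ˢ univ
      target := univ
      map_source' := fun _ _ => trivial
      map_target' := fun _ _ => ⟨rfl, trivial⟩
      left_inv' := fun b hb => Prod.ext hb.1.symm rfl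
      right_inv' := fun _ _ => rfl
      open_source := (isOpen_discrete _).prod isOpen_univ
      open_target := isOpen_univ
      continuousOn_toFun := continuous_snd.continuousOn
      continuousOn_invFun := (continuous_const.prodMk continuous_id).continuousOn }
  exact ⟨e, ⟨rfl, trivial⟩, rfl⟩

/-- inversion as a homeomorphism -/
def invH : Γ × X ≃ₜ Γ × X where
  toFun a := (a.1⁻¹, a.1 • a.2)
  invFun a := (a.1⁻¹, a.1 • a.2)
  left_inv a := by simp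
  right_inv a := by simp
  continuous_toFun := (continuous_of_discreteTopology.comp continuous_fst).prodMk (cont_act Γ X)
  continuous_invFun := (continuous_of_discreteTopology.comp continuous_fst).prodMk (cont_act Γ X)

/-- the transformation groupoid -/
def transf : EtaleGroupoid (Γ × X) X where
  s a := a.2
  r a := a.1 • a.2
  u x := (1, x)
  mul a b := (a.1 * b.1, b.2)
  inv a := (a.1⁻¹, a.1 • a.2)
  s_u _ := rfl
  r_u x := one_smul _ x
  s_mul _ _ _ := rfl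
  r_mul g h e := by
    show (g.1 * h.1) • h.2 = g.1 • g.2
    rw [mul_smul, show g.2 = h.1 • h.2 from e]
  mul_assoc g h k _ _ := Prod.ext (mul_assoc _ _ _) rfl
  u_mul g := Prod.ext (one_mul _) rfl
  mul_u g := Prod.ext (mul_one _) rfl
  s_inv _ := rfl
  r_inv g := inv_smul_smul _ _
  mul_inv g := Prod.ext (mul_inv_cancel _) rfl
  inv_mul g := Prod.ext (inv_mul_cancel _) rfl
  continuous_u := continuous_const.prodMk continuous_id
  continuous_inv := (invH Γ X).continuous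
  continuousOn_mul := by
    refine Continuous.continuousOn (Continuous.prodMk ?_ (continuous_snd.comp continuous_snd))
    exact (continuous_of_discreteTopology (f := fun b : Γ × Γ => b.1 * b.2)).comp
      ((continuous_fst.comp continuous_fst).prodMk (continuous_fst.comp continuous_snd))
  isLocalHomeomorph_s := lh_snd Γ X
  isLocalHomeomorph_r := (lh_snd Γ X).comp (invH Γ X).isLocalHomeomorph

variable {Γ X}

theorem sub_mul {H : Set (Γ × X)} (hH : IsSubgroupoid (transf Γ X) H) {g h : Γ} {x : X}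
    (a : (g, h • x) ∈ H) (b : (h, x) ∈ H) : (g * h, x) ∈ H := hH.1 _ a _ b rfl

theorem sub_inv {H : Set (Γ × X)} (hH : IsSubgroupoid (transf Γ X) H) {g : Γ} {x : X}
    (a : (g, x) ∈ H) : (g⁻¹, g • x) ∈ H := hH.2 _ a

theorem sub_of {H : Set (Γ × X)} (h1 : ∀ g h x, (g, h • x) ∈ H → (h, x) ∈ H → (g * h, x) ∈ H)
    (h2 : ∀ g x, (g, x) ∈ H → (g⁻¹, g • x) ∈ H) : IsSubgroupoid (transf Γ X) H := by
  refine ⟨fun g hg h hh e => h1 g.1 h.1 h.2 ?_ hh, fun g hg => h2 g.1 g.2 hg⟩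
  rw [← show g.2 = h.1 • h.2 from e]
  exact hg

/-- the self-similarity criterion for the failure of finite dynamical complexity -/
theorem not_fdc_of [CompactSpace X] [T2Space X] [Nonempty X] [Infinite Γ] (S : Set Γ)
    (hS : S.Finite)
    (key : ∀ U₀ U₁ : Set X, IsOpen U₀ → IsOpen U₁ → U₀ ∪ U₁ = univ →
      ∃ U, (U = U₀ ∨ U = U₁) ∧ ∃ (φ : Γ →* Γ) (F : X → X), Function.Injective φ ∧ Continuous F ∧
        (∀ g x, F (g • x) = φ g • F x) ∧
        ∀ g x, (φ g, F x) ∈ generated (transf Γ X) (S ×ˢ univ) U) :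
    ¬ FDC (transf Γ X) := by
  intro h
  let P : Set (Γ × X) → Prop := fun H => ∃ (φ : Γ →* Γ) (F : X → X), Function.Injective φ ∧
    Continuous F ∧ (∀ g x, F (g • x) = φ g • F x) ∧ ∀ g x, (φ g, F x) ∈ H
  have := h {H | ¬ P H ∧ IsOpen H ∧ IsSubgroupoid (transf Γ X) H} (fun H hH => hH.2)
    (fun H a b c => ⟨?_, a, b⟩) (fun H a b c => ⟨?_, a, b⟩)
  · exact this.1 ⟨MonoidHom.id Γ, id, Function.injective_id, continuous_id, fun _ _ => rfl,
      fun _ _ => trivial⟩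
  · rintro ⟨φ, F, i, -, -, m⟩
    have fin : (Prod.fst '' closure H).Finite := (c.image continuous_fst).finite_of_discrete
    obtain ⟨x⟩ := ‹Nonempty X›
    exact Set.infinite_range_of_injective i
      (fin.subset (by rintro _ ⟨g, rfl⟩; exact ⟨_, subset_closure (m g x), rfl⟩))
  · rintro ⟨φ, F, i, cF, eq, m⟩
    have cc : IsCompact ((φ '' S) ×ˢ range F) :=
      (hS.image φ).isCompact.prod (isCompact_range cF)
    have sub : (φ '' S) ×ˢ range F ⊆ H := by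
      rintro ⟨_, _⟩ ⟨⟨g, -, rfl⟩, x, rfl⟩
      exact m g x
    obtain ⟨K, k1, k2, k3, k4⟩ := exists_open_between_and_isCompact_closure cc a sub
    obtain ⟨U₀, U₁, o0, o1, e, ⟨H₀, m0, g0⟩, ⟨H₁, m1, g1⟩⟩ := c K k1 k4 k3
    obtain ⟨U, hU, φ', F', i', cF', eq', m'⟩ := key (F ⁻¹' U₀) (F ⁻¹' U₁) (o0.preimage cF)
      (o1.preimage cF) (by
        rw [← preimage_union, e]
        refine eq_univ_of_forall fun x => ?_
        have := m 1 x
        rw [map_one] at this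
        exact this)
    have main : ∀ W : Set X, U = F ⁻¹' W → ∀ H', generated (transf Γ X) K W ⊆ H' → P H' := by
      intro W hW H' g'
      refine ⟨φ.comp φ', F ∘ F', i.comp i', cF.comp cF', fun g x => ?_, fun g x => g' ?_⟩
      · simp [eq', eq]
      · intro T hT
        refine m' g x {a | (φ a.1, F a.2) ∈ T} ⟨sub_of (fun g h x a b => ?_) fun g x a => ?_, ?_⟩
        · simp only [mem_ofPred_eq, map_mul, eq] at a b ⊢
          exact sub_mul hT.1 a b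
        · simp only [mem_ofPred_eq, map_inv, eq] at a ⊢
          exact sub_inv hT.1 a
        · rintro ⟨s, y⟩ ⟨⟨hs, -⟩, a1, a2⟩
          subst hW
          refine hT.2 ⟨k2 ⟨⟨s, hs, rfl⟩, y, rfl⟩, a1, ?_⟩
          show φ s • F y ∈ W
          rw [← eq]
          exact a2
    rcases hU with hU | hU
    · exact m0.1 (main U₀ hU H₀ g0)
    · exact m1.1 (main U₁ hU H₁ g1)

end transf

/-- the data used in the construction -/
structure Data (Γ : Type) [Group Γ] (n : ℕ) where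
  l : Γ → ℕ
  l_mul : ∀ a b, l (a * b) ≤ l a + l b
  l_inv : ∀ a, l a⁻¹ = l a
  fin : ∀ r, {g | l g ≤ r}.Finite
  N : ℕ → ℕ
  N_two : ∀ k, 2 ≤ N k
  N_mono : Monotone N
  φ : ℕ → Γ →* Γ
  φ_len : ∀ m a, l (φ m a) = N m * l a
  φ_inj : ∀ m, Function.Injective (φ m)
  cocpt : ∀ m v, ∃ a r, v = φ m a * r ∧ l r ≤ 3 * N m
  per : ℕ → Γ → Fin (n + 1)
  per_inv : ∀ k m a v, k ≤ m → per k (φ m a * v) = per k v
  per_bd : ∀ k u v, ReflTransGen (fun u v => l (u⁻¹ * v) ≤ k ∧ per k u = per k v) u v →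
    l (u⁻¹ * v) ≤ N k
  c : ℕ
  fa : ∀ m (κ : Γ → Prop), (∀ a v, κ (φ m a * v) ↔ κ v) →
    ∃ g₀, ∀ a, ReflTransGen (fun u v => l (u⁻¹ * v) ≤ c ∧ (κ u ↔ κ v)) g₀ (φ m a * g₀)
  tf : ∀ (g : Γ) (k : ℕ), 0 < k → g ^ k = 1 → g = 1

namespace Data

variable {Γ : Type} [Group Γ] {n : ℕ} (𝒟 : Data Γ n)

def D : ℕ → ℕ
  | 0 => 𝒟.N 0
  | k + 1 => 𝒟.N (k + 1) + 𝒟.N k * (D k + 6)

def Ch (k : ℕ) (y : Γ → Fin (n + 1)) : Γ → Γ → Prop :=
  ReflTransGen fun u v => 𝒟.l (u⁻¹ * v) ≤ k ∧ y u = y v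

def Valid (x : ℕ → Γ → Fin (n + 1)) : Prop := ∀ k u v, 𝒟.Ch k (x k) u v → 𝒟.l (u⁻¹ * v) ≤ 𝒟.D k

def XX : Type := {x : ℕ → Γ → Fin (n + 1) // 𝒟.Valid x}

instance : TopologicalSpace 𝒟.XX := instTopologicalSpaceSubtype

theorem ch_left {k : ℕ} {y : Γ → Fin (n + 1)} (g : Γ) {u v : Γ}
    (h : 𝒟.Ch k (fun h => y (g * h)) u v) : 𝒟.Ch k y (g * u) (g * v) :=
  ReflTransGen.lift (fun h => g * h) (fun a b s => ⟨by simpa [mul_assoc] using s.1, s.2⟩) _ _ h

theorem ch_symm {k : ℕ} {y : Γ → Fin (n + 1)} {u v : Γ} (h : 𝒟.Ch k y u v) : 𝒟.Ch k y v u := by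
  induction h with
  | refl => exact ReflTransGen.refl
  | tail _ s ih =>
    refine ReflTransGen.head ⟨?_, s.2.symm⟩ ih
    rw [← 𝒟.l_inv]
    simpa using s.1

instance : MulAction Γ 𝒟.XX where
  smul g x := ⟨fun k h => x.1 k (g⁻¹ * h), fun k u v c => by
    simpa [mul_assoc] using x.2 k _ _ (𝒟.ch_left g⁻¹ c)⟩
  one_smul x := Subtype.ext (by
    funext k h
    show x.1 k (1⁻¹ * h) = x.1 k h
    simp)
  mul_smul a b x := Subtype.ext (by
    funext k h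
    show x.1 k ((a * b)⁻¹ * h) = x.1 k (b⁻¹ * (a⁻¹ * h))
    simp [mul_assoc])

theorem smul_val (g : Γ) (x : 𝒟.XX) (k : ℕ) (h : Γ) : (g • x).1 k h = x.1 k (g⁻¹ * h) := rfl

theorem cont_ev (k : ℕ) (h : Γ) : Continuous fun x : 𝒟.XX => x.1 k h :=
  (continuous_apply h).comp ((continuous_apply k).comp continuous_subtype_val)

instance : ContinuousConstSMul Γ 𝒟.XX where
  continuous_const_smul g := Continuous.subtype_mk
    (continuous_pi fun k => continuous_pi fun h => 𝒟.cont_ev k (g⁻¹ * h)) _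

theorem closed_valid : IsClosed {x | 𝒟.Valid x} := by
  have op : ∀ k u v, IsOpen {x : ℕ → Γ → Fin (n + 1) | 𝒟.Ch k (x k) u v} := by
    intro k u v
    rw [isOpen_iff_mem_nhds]
    intro x hx
    induction hx with
    | refl => exact univ_mem' fun _ => ReflTransGen.refl
    | @tail b c _ s ih =>
      have cf : Continuous fun x : ℕ → Γ → Fin (n + 1) => (x k b, x k c) :=
        ((continuous_apply b).comp (continuous_apply k)).prodMk
          ((continuous_apply c).comp (continuous_apply k))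
      have : {y : ℕ → Γ → Fin (n + 1) | y k b = y k c} ∈ 𝓝 x :=
        ((isOpen_discrete {p : Fin (n + 1) × Fin (n + 1) | p.1 = p.2}).preimage cf).mem_nhds s.2
      filter_upwards [ih, this] with y h1 h2
      exact ReflTransGen.tail h1 ⟨s.1, h2⟩
  have : {x | 𝒟.Valid x} = ⋂ k, ⋂ u, ⋂ v, ⋂ _ : ¬ 𝒟.l (u⁻¹ * v) ≤ 𝒟.D k,
      {x : ℕ → Γ → Fin (n + 1) | 𝒟.Ch k (x k) u v}ᶜ := by
    ext x
    simp only [Valid, mem_ofPred_eq, mem_iInter, mem_compl_iff]
    exact forall₃_congr fun k u v => not_imp_not.symm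
  rw [this]
  exact isClosed_iInter fun k => isClosed_iInter fun u => isClosed_iInter fun v =>
    isClosed_iInter fun _ => (op k u v).isClosed_compl

instance : CompactSpace 𝒟.XX := isCompact_iff_compactSpace.1 𝒟.closed_valid.isCompact

instance : T2Space 𝒟.XX := inferInstanceAs (T2Space {x : ℕ → Γ → Fin (n + 1) // 𝒟.Valid x})

instance : TotallyDisconnectedSpace 𝒟.XX :=
  inferInstanceAs (TotallyDisconnectedSpace {x : ℕ → Γ → Fin (n + 1) // 𝒟.Valid x})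

instance [Countable Γ] : SecondCountableTopology 𝒟.XX :=
  TopologicalSpace.Subtype.secondCountableTopology {x : ℕ → Γ → Fin (n + 1) | 𝒟.Valid x}

theorem N_le_D (k : ℕ) : 𝒟.N k ≤ 𝒟.D k := by
  cases k with
  | zero => exact le_rfl
  | succ k => exact Nat.le_add_right _ _

def y0 : 𝒟.XX := ⟨𝒟.per, fun k u v c => (𝒟.per_bd k u v c).trans (𝒟.N_le_D k)⟩

instance : Nonempty 𝒟.XX := ⟨𝒟.y0⟩

theorem free (g : Γ) (x : 𝒟.XX) (h : g • x = x) : g = 1 := by
  have e : ∀ k u, x.1 k (g⁻¹ * u) = x.1 k u := fun k u => by rw [← smul_val, h]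
  have ch : ∀ j : ℕ, 𝒟.Ch (𝒟.l g) (x.1 (𝒟.l g)) 1 (g ^ j) := by
    intro j
    induction j with
    | zero => rw [pow_zero]; exact ReflTransGen.refl
    | succ j ih =>
      refine ih.tail ⟨by simp [pow_succ], ?_⟩
      rw [← e _ (g ^ (j + 1)), pow_succ', inv_mul_cancel_left]
  have fin : (range fun j : ℕ => g ^ j).Finite :=
    (𝒟.fin (𝒟.D (𝒟.l g))).subset (by
      rintro _ ⟨j, rfl⟩
      simpa using x.2 _ _ _ (ch j))
  obtain ⟨k, hk, e⟩ := isOfFinOrder_iff_pow_eq_one.1 (finite_powers.1 fin)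
  exact 𝒟.tf g k hk e

variable [TopologicalSpace Γ] [DiscreteTopology Γ]

theorem principal : Principal (transf Γ 𝒟.XX) := fun g h =>
  Prod.ext (𝒟.free g.1 g.2 h) rfl

theorem dad : DADAtMost (transf Γ 𝒟.XX) n := by
  intro K _ hK
  have fin : (Prod.fst '' closure K).Finite := (hK.image continuous_fst).finite_of_discrete
  obtain ⟨k, hk⟩ := (fin.image 𝒟.l).bddAbove
  refine ⟨fun i => {x | x.1 k 1 = i}, fun i => (isOpen_discrete {i}).preimage (𝒟.cont_ev k 1),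
    fun x _ => mem_iUnion.2 ⟨_, rfl⟩, fun i => ?_⟩
  have cc : IsCompact ({g | 𝒟.l g ≤ 𝒟.D k} ×ˢ (univ : Set 𝒟.XX)) :=
    (𝒟.fin _).isCompact.prod isCompact_univ
  refine cc.closure_of_subset fun a ha => ⟨?_, trivial⟩
  have := ha {a | 𝒟.Ch k (a.2.1 k) 1 a.1⁻¹} ⟨sub_of (fun g h x a b => ?_) fun g x a => ?_, ?_⟩
  · have := a.2.2 k _ _ this
    simpa [𝒟.l_inv] using this
  · have := 𝒟.ch_left (y := x.1 k) h⁻¹ a
    rw [mul_one, ← mul_inv_rev] at this
    exact ReflTransGen.trans b this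
  · have := 𝒟.ch_left (y := (g • x).1 k) (u := g⁻¹) (v := 1) g
      (by simpa [smul_val] using 𝒟.ch_symm a)
    simpa using this
  · rintro ⟨g, x⟩ ⟨m, a1, a2⟩
    have a1' : x.1 k 1 = i := a1
    have a2' : x.1 k (g⁻¹ * 1) = i := a2
    rw [mul_one] at a2'
    refine ReflTransGen.single ⟨?_, a1'.trans a2'.symm⟩
    simpa [𝒟.l_inv] using hk ⟨g, ⟨_, subset_closure m, rfl⟩, rfl⟩

omit [TopologicalSpace Γ] [DiscreteTopology Γ] in
theorem exists_pi (m : ℕ) : ∃ π : Γ → Γ, (∀ a v, π (𝒟.φ m a * v) = a * π v) ∧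
    ∀ u v, 𝒟.N m * 𝒟.l ((π u)⁻¹ * π v) ≤ 𝒟.l (u⁻¹ * v) + 6 * 𝒟.N m ∧
      𝒟.l (u⁻¹ * v) ≤ 𝒟.N m * 𝒟.l ((π u)⁻¹ * π v) + 6 * 𝒟.N m := by
  let P : Γ → Γ → Prop := fun v r => 𝒟.l r ≤ 3 * 𝒟.N m ∧ ∃ a, v = 𝒟.φ m a * r
  let rep : Γ → Γ := fun v => Classical.epsilon (P v)
  have hrep : ∀ v, P v (rep v) := fun v => Classical.epsilon_spec (p := P v) (by
    obtain ⟨a, r, e, h⟩ := 𝒟.cocpt m v
    exact ⟨r, h, a, e⟩)
  have inv : ∀ a v, rep (𝒟.φ m a * v) = rep v := by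
    intro a v
    have : P (𝒟.φ m a * v) = P v := by
      funext r
      refine propext (and_congr_right fun _ => ⟨?_, ?_⟩)
      · rintro ⟨b, e⟩
        exact ⟨a⁻¹ * b, by rw [map_mul, map_inv, mul_assoc, ← e, inv_mul_cancel_left]⟩
      · rintro ⟨b, e⟩
        exact ⟨a * b, by rw [map_mul, mul_assoc, ← e]⟩
    simp only [rep, this]
  choose π hπ using fun v => (hrep v).2
  refine ⟨π, fun a v => 𝒟.φ_inj m ?_, fun u v => ?_⟩
  · have h1 := hπ (𝒟.φ m a * v)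
    rw [inv] at h1
    nth_rewrite 1 [hπ v] at h1
    rw [← mul_assoc] at h1
    rw [map_mul]
    exact (mul_right_cancel h1).symm
  · have ru := (hrep u).1
    have rv := (hrep v).1
    have e1 : u⁻¹ * v = (rep u)⁻¹ * (𝒟.φ m ((π u)⁻¹ * π v) * rep v) := by
      rw [map_mul, map_inv]
      nth_rewrite 1 [hπ u, hπ v]
      group
    have e2 : 𝒟.φ m ((π u)⁻¹ * π v) = rep u * (u⁻¹ * v * (rep v)⁻¹) := by
      rw [e1]; group
    have a1 := 𝒟.l_mul (rep u)⁻¹ (𝒟.φ m ((π u)⁻¹ * π v) * rep v)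
    have a2 := 𝒟.l_mul (𝒟.φ m ((π u)⁻¹ * π v)) (rep v)
    have a3 := 𝒟.l_mul (rep u) (u⁻¹ * v * (rep v)⁻¹)
    have a4 := 𝒟.l_mul (u⁻¹ * v) (rep v)⁻¹
    rw [← e1, 𝒟.l_inv] at a1
    rw [← e2] at a3
    rw [𝒟.l_inv] at a4
    rw [𝒟.φ_len] at a2 a3
    omega

omit [TopologicalSpace Γ] [DiscreteTopology Γ] in
theorem leb (U₀ U₁ : Set 𝒟.XX) (o0 : IsOpen U₀) (o1 : IsOpen U₁) (e : U₀ ∪ U₁ = univ) :
    ∃ m, 12 ≤ m ∧ ∀ x : 𝒟.XX, (∀ y : 𝒟.XX, (∀ k ≤ m, y.1 k = x.1 k) → y ∈ U₀) ∨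
      (∀ y : 𝒟.XX, (∀ k ≤ m, y.1 k = x.1 k) → y ∈ U₁) := by
  have loc : ∀ U : Set 𝒟.XX, IsOpen U → ∀ x ∈ U, ∃ (W : Set 𝒟.XX) (m : ℕ), W ∈ 𝓝 x ∧
      ∀ z ∈ W, ∀ y : 𝒟.XX, (∀ k ≤ m, y.1 k = z.1 k) → y ∈ U := by
    intro U o x hx
    obtain ⟨t, ht, rfl⟩ := isOpen_induced_iff.1 o
    obtain ⟨I, u, hu, sub⟩ := isOpen_pi_iff.1 ht x.1 hx
    refine ⟨Subtype.val ⁻¹' (I : Set ℕ).pi u, I.sup id,
      ((isOpen_set_pi I.finite_toSet fun a ha => (hu a ha).1).preimage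
        continuous_subtype_val).mem_nhds fun a ha => (hu a ha).2, fun z hz y hy => sub ?_⟩
    intro a ha
    rw [hy a (Finset.le_sup (f := id) ha)]
    exact hz a ha
  have : ∀ x : 𝒟.XX, ∃ (W : Set 𝒟.XX) (m : ℕ), W ∈ 𝓝 x ∧
      ((∀ z ∈ W, ∀ y : 𝒟.XX, (∀ k ≤ m, y.1 k = z.1 k) → y ∈ U₀) ∨
        (∀ z ∈ W, ∀ y : 𝒟.XX, (∀ k ≤ m, y.1 k = z.1 k) → y ∈ U₁)) := by
    intro x
    rcases (e.symm ▸ mem_univ x : x ∈ U₀ ∪ U₁) with h | h
    · obtain ⟨W, m, a, b⟩ := loc U₀ o0 x h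
      exact ⟨W, m, a, Or.inl b⟩
    · obtain ⟨W, m, a, b⟩ := loc U₁ o1 x h
      exact ⟨W, m, a, Or.inr b⟩
  choose W m hW hm using this
  obtain ⟨t, ht⟩ := CompactSpace.elim_nhds_subcover W hW
  refine ⟨max 12 (t.sup m), le_max_left _ _, fun x => ?_⟩
  obtain ⟨z, hz, hx⟩ := mem_iUnion₂.1 (ht.symm ▸ mem_univ x : x ∈ ⋃ z ∈ t, W z)
  have le : m z ≤ max 12 (t.sup m) := (Finset.le_sup hz).trans (le_max_right _ _)
  rcases hm z with h | h
  · exact Or.inl fun y hy => h x hx y fun k hk => hy k (hk.trans le)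
  · exact Or.inr fun y hy => h x hx y fun k hk => hy k (hk.trans le)

theorem not_fdc [Infinite Γ] : ¬ FDC (transf Γ 𝒟.XX) := by
  refine not_fdc_of {g | 𝒟.l g ≤ 𝒟.c ∨ g = 1} ((𝒟.fin 𝒟.c).union (finite_singleton 1))
    fun U₀ U₁ o0 o1 e => ?_
  obtain ⟨m, m12, hm⟩ := 𝒟.leb U₀ U₁ o0 o1 e
  obtain ⟨π, π1, π2⟩ := 𝒟.exists_pi m
  let F0 : 𝒟.XX → 𝒟.XX := fun x =>
    ⟨fun k h => if k ≤ m then 𝒟.per k h else x.1 (k - 1) (π h), by
      intro k u v c
      by_cases hk : k ≤ m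
      · simp only [hk, if_true] at c
        exact 𝒟.y0.2 k u v c
      · simp only [hk, if_false] at c
        obtain ⟨j, rfl⟩ : ∃ j, k = j + 1 := ⟨k - 1, by omega⟩
        have N2 := 𝒟.N_two m
        have c' : 𝒟.Ch j (x.1 j) (π u) (π v) := by
          refine ReflTransGen.lift π (fun a b s => ⟨?_, s.2⟩) _ _ c
          have h1 := (π2 a b).1
          have h2 := s.1
          by_contra h3
          have h4 : 𝒟.N m * (j + 1) ≤ 𝒟.N m * 𝒟.l ((π a)⁻¹ * π b) :=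
            Nat.mul_le_mul_left _ (by omega)
          have h5 : 2 * (j - 5) ≤ 𝒟.N m * (j - 5) := Nat.mul_le_mul_right _ N2
          have h6 : 𝒟.N m * (j + 1) = 𝒟.N m * (j - 5) + 6 * 𝒟.N m := by
            rw [show j + 1 = (j - 5) + 6 by omega]; ring
          omega
        have h1 := x.2 j _ _ c'
        have h2 := (π2 u v).2
        have h3 : 𝒟.N m ≤ 𝒟.N j := 𝒟.N_mono (by omega)
        have h4 : 𝒟.N m * (𝒟.l ((π u)⁻¹ * π v) + 6) ≤ 𝒟.N j * (𝒟.D j + 6) :=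
          Nat.mul_le_mul h3 (by omega)
        show _ ≤ 𝒟.N (j + 1) + 𝒟.N j * (𝒟.D j + 6)
        rw [mul_add] at h4
        omega⟩
  have cF : Continuous F0 := by
    refine Continuous.subtype_mk (continuous_pi fun k => continuous_pi fun h => ?_) _
    by_cases hk : k ≤ m
    · simp only [hk, if_true]; exact continuous_const
    · simp only [hk, if_false]; exact 𝒟.cont_ev _ _
  have eqv : ∀ g x, F0 (g • x) = 𝒟.φ m g • F0 x := by
    intro g x
    refine Subtype.ext (funext fun k => funext fun h => ?_)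
    rw [smul_val, ← map_inv]
    by_cases hk : k ≤ m
    · simp only [F0, hk, if_true]
      exact (𝒟.per_inv k m _ _ hk).symm
    · simp only [F0, hk, if_false]
      rw [π1, smul_val]
  let κ : Γ → Prop := fun g => ∀ y : 𝒟.XX, (∀ k ≤ m, y.1 k = (g⁻¹ • 𝒟.y0).1 k) → y ∈ U₀
  have agree : ∀ (g : Γ) (x : 𝒟.XX), ∀ k ≤ m, (g⁻¹ • F0 x).1 k = (g⁻¹ • 𝒟.y0).1 k := by
    intro g x k hk
    funext h
    simp only [smul_val, F0, hk, if_true]
    rfl
  obtain ⟨g₀, hg⟩ := 𝒟.fa m κ (by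
    intro a v
    have : ∀ k ≤ m, ((𝒟.φ m a * v)⁻¹ • 𝒟.y0).1 k = (v⁻¹ • 𝒟.y0).1 k := by
      intro k hk
      funext h
      simp only [smul_val, inv_inv, mul_assoc]
      exact 𝒟.per_inv k m _ _ hk
    exact forall_congr' fun y => imp_congr_left (forall₂_congr fun k hk => by rw [this k hk]))
  have main : ∀ U : Set 𝒟.XX, (∀ g x, (κ g ↔ κ g₀) → g⁻¹ • F0 x ∈ U) →
      ∃ (φ : Γ →* Γ) (F : 𝒟.XX → 𝒟.XX), Function.Injective φ ∧ Continuous F ∧
        (∀ g x, F (g • x) = φ g • F x) ∧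
        ∀ g x, (φ g, F x) ∈ generated (transf Γ 𝒟.XX) ({g | 𝒟.l g ≤ 𝒟.c ∨ g = 1} ×ˢ univ) U := by
    intro U hU
    refine ⟨(MulAut.conj g₀⁻¹).toMonoidHom.comp (𝒟.φ m), fun x => g₀⁻¹ • F0 x,
      (MulAut.conj g₀⁻¹).injective.comp (𝒟.φ_inj m), (continuous_const_smul _).comp cF,
      fun g x => ?_, fun g x T hT => ?_⟩
    · simp [eqv, mul_smul]
    · have ind : ∀ v, ReflTransGen (fun u v => 𝒟.l (u⁻¹ * v) ≤ 𝒟.c ∧ (κ u ↔ κ v)) g₀ v →
          (κ v ↔ κ g₀) ∧ (v⁻¹ * g₀, g₀⁻¹ • F0 x) ∈ T := by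
        intro v r
        induction r with
        | refl =>
          refine ⟨Iff.rfl, hT.2 ⟨⟨Or.inr (by simp), trivial⟩, hU _ _ Iff.rfl, ?_⟩⟩
          show (g₀⁻¹ * g₀) • g₀⁻¹ • F0 x ∈ U
          simpa using hU g₀ x Iff.rfl
        | @tail b c _ s ih =>
          have kc : κ c ↔ κ g₀ := s.2.symm.trans ih.1
          refine ⟨kc, ?_⟩
          have e1 : c⁻¹ * g₀ = (c⁻¹ * b) * (b⁻¹ * g₀) := by group
          rw [e1]
          refine sub_mul hT.1 (hT.2 ⟨⟨Or.inl ?_, trivial⟩, ?_, ?_⟩) ih.2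
          · show 𝒟.l (c⁻¹ * b) ≤ 𝒟.c
            rw [← 𝒟.l_inv]
            simpa using s.1
          · show (b⁻¹ * g₀) • g₀⁻¹ • F0 x ∈ U
            simpa [mul_smul] using hU b x ih.1
          · show (c⁻¹ * b) • (b⁻¹ * g₀) • g₀⁻¹ • F0 x ∈ U
            simpa [mul_smul] using hU c x kc
      simpa [mul_assoc] using (ind _ (hg g⁻¹)).2
  by_cases k : κ g₀
  · exact ⟨U₀, Or.inl rfl, main U₀ fun g x h => h.2 k _ (agree g x)⟩
  · exact ⟨U₁, Or.inr rfl, main U₁ fun g x h =>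
      (hm (g⁻¹ • 𝒟.y0)).resolve_left (fun z => k (h.1 z)) _ (agree g x)⟩

end Data

end Pool.Agent.H260Z.DAD
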