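import Pool.Agent.H260Z.DAD.Tree

/-!
Vanishing of the first cohomology for product graphs, and fixed points for tree pseudo-metrics.
-/

set_option autoImplicit false

namespace Pool.Agent.H260Z.DAD

open Relation Set

theorem coc_self {V : Type} {A : V → V → Prop} {f : V → V → Prop}
    (hf : ∀ u v w, A u v → A v w → A u w → (f u w ↔ ¬ (f u v ↔ f v w))) {u : V} (h : A u u) :
    ¬ f u u := by
  have := hf u u u h h h
  simp_all

theorem prop5 (a b c d e p q r s : Prop) (h1 : e ↔ ¬ (a ↔ b)) (h2 : e ↔ ¬ (c ↔ d))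
    (h3 : a ↔ ¬ (p ↔ q)) (h4 : b ↔ ¬ (q ↔ r)) (h5 : c ↔ ¬ (p ↔ s)) : d ↔ ¬ (s ↔ r) := by
  by_cases p <;> by_cases q <;> by_cases r <;> by_cases s <;> simp_all

theorem prop6 (a b e p q r : Prop) (h1 : e ↔ ¬ (a ↔ b))
    (h3 : a ↔ ¬ (p ↔ q)) (h4 : b ↔ ¬ (q ↔ r)) : e ↔ ¬ (p ↔ r) := by
  by_cases p <;> by_cases q <;> by_cases r <;> simp_all

theorem prop7 (a b e p q r : Prop) (h1 : e ↔ ¬ (a ↔ b))
    (h3 : e ↔ ¬ (p ↔ r)) (h4 : b ↔ ¬ (q ↔ r)) : a ↔ ¬ (p ↔ q) := by
  by_cases p <;> by_cases q <;> by_cases r <;> simp_all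

theorem h1_prod {V W : Type} {A : V → V → Prop} {B : W → W → Prop} {C : V × W → V × W → Prop}
    (hA : H1 A) (hB : H1 B) (cB : ∀ u v, ReflTransGen B u v)
    (sA : ∀ u v, A u v → A v u)
    (sC : ∀ u v, C u v → C v u) (rC : ∀ u, C u u)
    (c1 : ∀ v v' w, A v v' → C (v, w) (v', w)) (c2 : ∀ v w w', B w w' → C (v, w) (v, w'))
    (c3 : ∀ x y, C x y → A x.1 y.1 ∧ B x.2 y.2)
    (c4 : ∀ v v' w w', A v v' → B w w' → C (v, w) (v', w') ∨ C (v', w) (v, w')) (w₀ : W) :
    H1 C := by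
  intro f hf
  have sy : ∀ x y, C x y → (f x y ↔ f y x) := by
    intro x y c
    have a := hf x y x c (sC _ _ c) (rC x)
    have b := coc_self hf (rC x)
    by_cases f x y <;> simp_all
  obtain ⟨h0, hh0⟩ := hA (fun v v' => f (v, w₀) (v', w₀))
    fun u v w a b c => hf _ _ _ (c1 _ _ _ a) (c1 _ _ _ b) (c1 _ _ _ c)
  have ex : ∀ v, ∃ h : W → Prop, (h w₀ ↔ h0 v) ∧
      ∀ w w', B w w' → (f (v, w) (v, w') ↔ ¬ (h w ↔ h w')) := by
    intro v
    obtain ⟨h, hh⟩ := hB (fun w w' => f (v, w) (v, w'))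
      fun u v w a b c => hf _ _ _ (c2 _ _ _ a) (c2 _ _ _ b) (c2 _ _ _ c)
    by_cases k : h w₀ ↔ h0 v
    · exact ⟨h, k, hh⟩
    · refine ⟨fun w => ¬ h w, ?_, fun w w' b => ?_⟩
      · by_cases h w₀ <;> simp_all
      · rw [hh w w' b, not_iff_not, not_iff_not]
  choose h e1 e2 using ex
  have hor : ∀ w v v', A v v' → (f (v, w) (v', w) ↔ ¬ (h v w ↔ h v' w)) := by
    intro w
    induction cB w₀ w with
    | refl => intro v v' a; rw [e1, e1]; exact hh0 v v' a
    | @tail b c _ s ih =>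
      have main : ∀ v v', A v v' → C (v, b) (v', c) →
          (f (v, c) (v', c) ↔ ¬ (h v c ↔ h v' c)) := fun v v' a d =>
        prop5 _ _ _ _ _ _ _ _ _ (hf (v, b) (v', b) (v', c) (c1 _ _ _ a) (c2 _ _ _ s) d)
          (hf (v, b) (v, c) (v', c) (c2 _ _ _ s) (c1 _ _ _ a) d) (ih v v' a) (e2 v' b c s)
          (e2 v b c s)
      intro v v' a
      rcases c4 v v' b c a s with d | d
      · exact main v v' a d
      · rw [sy _ _ (c1 _ _ _ a), main v' v (sA _ _ a) d, Iff.comm (a := h v c)]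
  refine ⟨fun x => h x.1 x.2, fun x y c => ?_⟩
  obtain ⟨a, b⟩ := c3 x y c
  exact prop6 _ _ _ _ _ _ (hf x (y.1, x.2) y (c1 _ _ _ a) (c2 _ _ _ b) c) (hor x.2 x.1 y.1 a)
    (e2 y.1 x.2 y.2 b)

theorem conn_prod {V W : Type} {A : V → V → Prop} {B : W → W → Prop} {C : V × W → V × W → Prop}
    (cA : ∀ u v, ReflTransGen A u v) (cB : ∀ u v, ReflTransGen B u v)
    (c1 : ∀ v v' w, A v v' → C (v, w) (v', w)) (c2 : ∀ v w w', B w w' → C (v, w) (v, w'))
    (x y : V × W) : ReflTransGen C x y :=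
  (ReflTransGen.lift (fun v => (v, x.2)) (fun _ _ a => c1 _ _ _ a) _ _ (cA x.1 y.1)).trans
    (ReflTransGen.lift (fun w => (y.1, w)) (fun _ _ a => c2 _ _ _ a) _ _ (cB x.2 y.2))

/-- adjacency on the line -/
def A1 (a b : ℤ) : Prop := (a - b).natAbs ≤ 1

theorem conn_A1 (a b : ℤ) : ReflTransGen A1 a b := by
  induction b using Int.inductionOn' (b := a) with
  | zero => exact ReflTransGen.refl
  | succ k _ ih => exact ih.tail (by unfold A1; omega)
  | pred k _ ih => exact ih.tail (by unfold A1; omega)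

theorem h1_A1 : H1 A1 := by
  classical
  intro f hf
  have rf : ∀ a, A1 a a := fun a => by unfold A1; omega
  have sy : ∀ x y, A1 x y → (f x y ↔ f y x) := by
    intro x y c
    have a := hf x y x c (by unfold A1 at *; omega) (rf x)
    have b := coc_self hf (rf x)
    by_cases f x y <;> simp_all
  let hp : ℕ → Prop := fun n => Nat.rec False (fun k p => ¬ (p ↔ f k (k + 1))) n
  let hn : ℕ → Prop := fun n => Nat.rec False (fun k p => ¬ (p ↔ f (-k - 1) (-k))) n
  let h : ℤ → Prop := fun z => if 0 ≤ z then hp z.toNat else hn (-z).toNat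
  have key : ∀ z, f z (z + 1) ↔ ¬ (h z ↔ h (z + 1)) := by
    intro z
    by_cases k : 0 ≤ z
    · obtain ⟨n, rfl⟩ := Int.eq_ofNat_of_zero_le k
      have e1 : h n = hp n := by simp [h]
      have e2 : h (n + 1) = ¬ (hp n ↔ f n (n + 1)) := by
        have : ((n : ℤ) + 1).toNat = n + 1 := by omega
        simp only [h, this, show (0 : ℤ) ≤ n + 1 by omega, if_true]
        rfl
      rw [e1, e2]
      generalize hp n = P
      generalize f n (n + 1) = Q
      by_cases P <;> simp_all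
    · obtain ⟨n, rfl⟩ : ∃ n : ℕ, z = -n - 1 := ⟨(-z - 1).toNat, by omega⟩
      have e1 : h (-n - 1) = ¬ (hn n ↔ f (-n - 1) (-n)) := by
        have : (-(-(n : ℤ) - 1)).toNat = n + 1 := by omega
        simp only [h, this, k, if_false]
        rfl
      have e2 : h (-n - 1 + 1) = hn n := by
        by_cases k' : n = 0
        · subst k'; simp [h, hp, hn]
        · have : (-(-(n : ℤ) - 1 + 1)).toNat = n := by omega
          simp only [h, this, show ¬ (0 : ℤ) ≤ -n - 1 + 1 by omega, if_false]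
      rw [e1, e2, show -(n : ℤ) - 1 + 1 = -n by ring]
      generalize hn n = P
      generalize f (-n - 1) (-n) = Q
      by_cases P <;> simp_all
  refine ⟨h, fun u v a => ?_⟩
  have : v = u ∨ v = u + 1 ∨ u = v + 1 := by unfold A1 at a; omega
  rcases this with rfl | rfl | rfl
  · simpa using coc_self hf a
  · exact key u
  · rw [sy _ _ a, key v, Iff.comm (a := h v)]

section fix

variable {V : Type} (d : V → V → ℕ)

theorem fixed_of_bounded {Γ : Type} [Group Γ] (ψ : Γ →* Equiv.Perm V) (κ : V → Prop)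
    (hsym : ∀ u v, d u v = d v u)
    (h4 : ∀ x y z w, d x y + d z w ≤ d x z + d y w ∨ d x y + d z w ≤ d x w + d y z)
    (hgeo : ∀ u v, d u v ≠ 0 → ∃ m, ¬ (κ m ↔ κ u) ∧ d u m = 1 ∧ d u v = d m v + 1)
    (hcol : ∀ u v, d u v = 0 → (κ u ↔ κ v))
    (hinv : ∀ g u v, d (ψ g u) (ψ g v) = d u v) (hκ : ∀ g u, κ (ψ g u) ↔ κ u)
    (v : V) (B : ℕ) (hB : ∀ g, d v (ψ g v) ≤ B) : ∃ u, ∀ g, d u (ψ g u) = 0 := by
  classical
  have ex : ∃ r, ∃ u, ∀ g, d u (ψ g v) ≤ r := ⟨B, v, hB⟩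
  obtain ⟨u, hu⟩ := Nat.find_spec ex
  refine ⟨u, fun g => ?_⟩
  by_contra ne
  obtain ⟨m, c, e1, e2⟩ := hgeo _ _ ne
  have n0 : d m (ψ g u) ≠ 0 := fun x => c ((hcol _ _ x).trans (hκ g u))
  have hu' : ∀ g', d (ψ g u) (ψ g' v) ≤ Nat.find ex := by
    intro g'
    have : ψ g' v = ψ g (ψ (g⁻¹ * g') v) := by
      rw [← Equiv.Perm.mul_apply, ← map_mul, mul_inv_cancel_left]
    rw [this, hinv]
    exact hu _
  have lt : ∀ g', d m (ψ g' v) + 1 ≤ Nat.find ex := by
    intro g'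
    have a1 := hu g'
    have a2 := hu' g'
    have a3 := h4 m (ψ g' v) u (ψ g u)
    rw [hsym m u, hsym (ψ g' v) u, hsym (ψ g' v) (ψ g u)] at a3
    omega
  have := Nat.find_min ex (m := Nat.find ex - 1) (by have := lt 1; omega)
  exact this ⟨m, fun g' => by have := lt g'; omega⟩

/-- rotation of order three of the hexagonal lattice -/
def rot (v : ℤ × ℤ) : ℤ × ℤ := (-v.2, v.1 - v.2)

theorem bounded_of_rot (f : ℤ × ℤ → ℕ) (C : ℕ) (f0 : f 0 = 0) (hneg : ∀ a, f (-a) = f a)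
    (hadd : ∀ a b, f (a + b) ≤ f a + f b)
    (h4 : ∀ a b c, f a + f (c - b) ≤ f b + f (c - a) ∨ f a + f (c - b) ≤ f c + f (b - a))
    (hrot : ∀ a, f (rot a) ≤ f a + C) : ∃ B, ∀ a, f a ≤ B := by
  have r3 : ∀ a, rot (rot (rot a)) = a := fun a => by
    ext <;> simp only [rot] <;> ring
  have s1 : ∀ a, f (a - rot (rot a)) ≤ f a + 4 * C := by
    intro a
    have h := h4 (a - rot (rot a)) a (- rot (rot a))
    have e2 : - rot (rot a) - a = rot a := by ext <;> simp [rot] <;> ring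
    have e3 : - rot (rot a) - (a - rot (rot a)) = -a := by abel
    have e4 : a - (a - rot (rot a)) = rot (rot a) := by abel
    rw [e2, e3, e4, hneg, hneg] at h
    have a1 := hrot a
    have a2 := hrot (rot a)
    have a3 := hrot (rot (rot a))
    rw [r3] at a3
    omega
  have s2 : ∀ a, f (a + a + a) ≤ f a + 9 * C := by
    intro a
    have a1 := s1 a
    have a2 := s1 (a - rot (rot a))
    have a3 := hrot (a - rot (rot a) - rot (rot (a - rot (rot a))))
    have e : rot (a - rot (rot a) - rot (rot (a - rot (rot a)))) = -(a + a + a) := by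
      ext <;> simp [rot] <;> ring
    rw [e, hneg] at a3
    omega
  have q : ∀ (a : ℤ × ℤ) (n : ℕ), f ((n + 2) • a) + f a ≤ f a + f (n • a) ∨
      f ((n + 2) • a) + f a ≤ f (2 • a) + f ((n + 1) • a) := by
    intro a n
    have h := h4 ((n + 2) • a) a (2 • a)
    have e1 : 2 • a - a = a := by rw [two_nsmul]; abel
    have e2 : 2 • a - (n + 2) • a = -(n • a) := by rw [add_nsmul]; abel
    have e3 : a - (n + 2) • a = -((n + 1) • a) := by
      rw [add_nsmul, add_nsmul, two_nsmul, one_nsmul]; abel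
    rwa [e1, e2, e3, hneg, hneg] at h
  have q' : ∀ (a : ℤ × ℤ) (n : ℕ), f (2 • a) + f ((n + 1) • a) ≤ f a + f (n • a) ∨
      f (2 • a) + f ((n + 1) • a) ≤ f ((n + 2) • a) + f a := by
    intro a n
    have h := h4 (2 • a) a ((n + 2) • a)
    have e1 : 2 • a - a = a := by rw [two_nsmul]; abel
    have e2 : (n + 2) • a - 2 • a = n • a := by rw [add_nsmul]; abel
    have e3 : (n + 2) • a - a = (n + 1) • a := by
      rw [add_nsmul, add_nsmul, two_nsmul, one_nsmul]; abel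
    have e4 : a - 2 • a = -a := by rw [two_nsmul]; abel
    rwa [e2, e3, e4, hneg] at h
  have s3 : ∀ a, f (2 • a) ≤ f a := by
    intro a
    by_contra k
    have up : ∀ n : ℕ, f (n • a) + 1 ≤ f ((n + 1) • a) := by
      intro n
      induction n with
      | zero =>
        have := hadd a a
        rw [← two_nsmul] at this
        simp only [zero_nsmul, f0, zero_add, one_nsmul]
        omega
      | succ n ih => have := q' a n; rw [show n + 1 + 1 = n + 2 from rfl]; omega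
    have up2 : ∀ n j : ℕ, f (n • a) + j ≤ f ((n + j) • a) := by
      intro n j
      induction j with
      | zero => simp
      | succ j ih => have := up (n + j); rw [← add_assoc n j 1]; omega
    have a1 := up2 (9 * C + 1) (9 * C + 1 + (9 * C + 1))
    have a2 := s2 ((9 * C + 1) • a)
    rw [← add_nsmul, ← add_nsmul, add_assoc] at a2
    omega
  have s4 : ∀ (a : ℤ × ℤ) (n : ℕ), f (n • a) ≤ f a ∧ f ((n + 1) • a) ≤ f a := by
    intro a n
    induction n with
    | zero => simp [f0]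
    | succ n ih =>
      have := q a n
      have := s3 a
      exact ⟨ih.2, by rw [show n + 1 + 1 = n + 2 from rfl]; omega⟩
  have s5 : ∀ (a : ℤ × ℤ) (n : ℤ), f (n • a) ≤ f a := by
    intro a n
    obtain ⟨k, rfl | rfl⟩ := Int.eq_nat_or_neg n
    · rw [natCast_zsmul]; exact (s4 a k).1
    · rw [neg_zsmul, natCast_zsmul, hneg]; exact (s4 a k).1
  refine ⟨f (1, 0) + f (0, 1), fun a => ?_⟩
  have e : a = a.1 • ((1, 0) : ℤ × ℤ) + a.2 • ((0, 1) : ℤ × ℤ) := by ext <;> simp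
  have a1 := hadd (a.1 • ((1, 0) : ℤ × ℤ)) (a.2 • ((0, 1) : ℤ × ℤ))
  have a2 := s5 (1, 0) a.1
  have a3 := s5 (0, 1) a.2
  rw [← e] at a1
  omega

end fix

end Pool.Agent.H260Z.DAD
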