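import Pool.Agent.H260Z.DAD.Fix

/-!
A torsion-free crystallographic group of dimension eight with holonomy `(ℤ/3)²`.
-/

set_option autoImplicit false

namespace Pool.Agent.H260Z.DAD

open Set Relation

abbrev E := ℤ × ℤ

def R (k : ZMod 3) (v : E) : E := if k = 0 then v else if k = 1 then rot v else rot (rot v)

def cls (v : E) : ZMod 3 := ((v.1 + v.2 : ℤ) : ZMod 3)

def nrm (v : E) : ℕ := max (max v.1.natAbs v.2.natAbs) (v.1 - v.2).natAbs

theorem z3 (k : ZMod 3) : k = 0 ∨ k = 1 ∨ k = 2 := by revert k; decide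

@[simp] theorem R0 (v : E) : R 0 v = v := rfl
theorem R1 (v : E) : R 1 v = rot v := rfl
theorem R2 (v : E) : R 2 v = rot (rot v) := rfl

theorem rot3 (a : E) : rot (rot (rot a)) = a := by
  ext <;> simp only [rot] <;> ring

theorem R_R (k l : ZMod 3) (v : E) : R k (R l v) = R (k + l) v := by
  have e1 : (1 : ZMod 3) + 1 = 2 := rfl
  have e2 : (1 : ZMod 3) + 2 = 0 := rfl
  have e3 : (2 : ZMod 3) + 1 = 0 := rfl
  have e4 : (2 : ZMod 3) + 2 = 1 := rfl
  rcases z3 k with rfl | rfl | rfl <;> rcases z3 l with rfl | rfl | rfl <;>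
    simp only [zero_add, add_zero, e1, e2, e3, e4, R0, R1, R2, rot3]

theorem R_add (k : ZMod 3) (v w : E) : R k (v + w) = R k v + R k w := by
  rcases z3 k with rfl | rfl | rfl <;> simp only [R0, R1, R2] <;> ext <;> simp [rot] <;> ring

theorem R_neg (k : ZMod 3) (v : E) : R k (-v) = - R k v := by
  rcases z3 k with rfl | rfl | rfl <;> simp only [R0, R1, R2] <;> ext <;> simp [rot] <;> ring

@[simp] theorem R_zero (k : ZMod 3) : R k 0 = 0 := by
  rcases z3 k with rfl | rfl | rfl <;> rfl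

theorem R_smul (k : ZMod 3) (n : ℤ) (v : E) : R k (n • v) = n • R k v := by
  rcases z3 k with rfl | rfl | rfl <;> simp only [R0, R1, R2] <;> ext <;> simp [rot] <;> ring

theorem cls_add (v w : E) : cls (v + w) = cls v + cls w := by
  simp only [cls, Prod.fst_add, Prod.snd_add]; push_cast; ring

theorem cls_neg (v : E) : cls (-v) = - cls v := by
  simp only [cls, Prod.fst_neg, Prod.snd_neg]; push_cast; ring

@[simp] theorem cls_zero : cls 0 = 0 := rfl

theorem cls_smul (n : ℤ) (v : E) : cls (n • v) = n * cls v := by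
  simp only [cls, Prod.smul_fst, Prod.smul_snd, smul_eq_mul]; push_cast; ring

theorem three : (3 : ZMod 3) = 0 := rfl

theorem cls_rot (v : E) : cls (rot v) = cls v := by
  simp only [cls, rot]; push_cast
  linear_combination (-(v.2 : ZMod 3)) * three

theorem cls_R (k : ZMod 3) (v : E) : cls (R k v) = cls v := by
  rcases z3 k with rfl | rfl | rfl <;> simp only [R0, R1, R2, cls_rot]

theorem nrm_R (k : ZMod 3) (v : E) : nrm (R k v) = nrm v := by
  rcases z3 k with rfl | rfl | rfl <;> simp only [R0, R1, R2, nrm, rot] <;> omega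

theorem nrm_neg (v : E) : nrm (-v) = nrm v := by
  simp only [nrm, Prod.fst_neg, Prod.snd_neg]; omega

theorem nrm_add (v w : E) : nrm (v + w) ≤ nrm v + nrm w := by
  have a1 := Int.natAbs_add_le v.1 w.1
  have a2 := Int.natAbs_add_le v.2 w.2
  have a3 := Int.natAbs_add_le (v.1 - v.2) (w.1 - w.2)
  simp only [nrm, Prod.fst_add, Prod.snd_add]
  rw [show v.1 + w.1 - (v.2 + w.2) = v.1 - v.2 + (w.1 - w.2) by ring]
  generalize (v.1 - v.2 + (w.1 - w.2)).natAbs = a at *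
  generalize (v.1 + w.1).natAbs = b at *
  generalize (v.2 + w.2).natAbs = c at *
  generalize (v.1 - v.2).natAbs = d at *
  generalize (w.1 - w.2).natAbs = e at *
  generalize (v.1).natAbs = f at *
  generalize (v.2).natAbs = g at *
  generalize (w.1).natAbs = h at *
  generalize (w.2).natAbs = i at *
  omega

theorem nrm_smul (n : ℕ) (v : E) : nrm ((n : ℤ) • v) = n * nrm v := by
  simp only [nrm, Prod.smul_fst, Prod.smul_snd, smul_eq_mul, ← mul_sub, Int.natAbs_mul,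
    Int.natAbs_natCast, Nat.mul_max_mul_left]

/-- the ambient crystallographic group, with torsion -/
@[ext] structure L where
  c1 : E
  c2 : E
  c3 : E
  c4 : E

instance : Mul L := ⟨fun u v => ⟨u.c1 + R (cls u.c2) v.c1, u.c2 + R (cls u.c1) v.c2,
  u.c3 + R (cls u.c2 + cls u.c1) v.c3, u.c4 + R (cls u.c2 - cls u.c1) v.c4⟩⟩
instance : One L := ⟨⟨0, 0, 0, 0⟩⟩
instance : Inv L := ⟨fun u => ⟨- R (- cls u.c2) u.c1, - R (- cls u.c1) u.c2,
  - R (- (cls u.c2 + cls u.c1)) u.c3, - R (- (cls u.c2 - cls u.c1)) u.c4⟩⟩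

theorem mul1 (u v : L) : (u * v).c1 = u.c1 + R (cls u.c2) v.c1 := rfl
theorem mul2 (u v : L) : (u * v).c2 = u.c2 + R (cls u.c1) v.c2 := rfl
theorem mul3 (u v : L) : (u * v).c3 = u.c3 + R (cls u.c2 + cls u.c1) v.c3 := rfl
theorem mul4 (u v : L) : (u * v).c4 = u.c4 + R (cls u.c2 - cls u.c1) v.c4 := rfl
theorem inv1 (u : L) : (u⁻¹).c1 = - R (- cls u.c2) u.c1 := rfl
theorem inv2 (u : L) : (u⁻¹).c2 = - R (- cls u.c1) u.c2 := rfl
theorem inv3 (u : L) : (u⁻¹).c3 = - R (- (cls u.c2 + cls u.c1)) u.c3 := rfl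
theorem inv4 (u : L) : (u⁻¹).c4 = - R (- (cls u.c2 - cls u.c1)) u.c4 := rfl
theorem one1 : (1 : L).c1 = 0 := rfl
theorem one2 : (1 : L).c2 = 0 := rfl
theorem one3 : (1 : L).c3 = 0 := rfl
theorem one4 : (1 : L).c4 = 0 := rfl

instance : Group L := Group.ofLeftAxioms
  (fun a b c => by
    refine L.ext ?_ ?_ ?_ ?_ <;>
      simp only [mul1, mul2, mul3, mul4, R_add, R_R, cls_add, cls_R, add_assoc] <;>
      congr 3 <;> ring)
  (fun a => by
    refine L.ext ?_ ?_ ?_ ?_ <;> simp [mul1, mul2, mul3, mul4, one1, one2, one3, one4])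
  (fun a => by
    refine L.ext ?_ ?_ ?_ ?_ <;>
      simp only [mul1, mul2, mul3, mul4, inv1, inv2, inv3, inv4, cls_neg, cls_R, one1, one2, one3,
        one4, neg_add_eq_zero] <;>
      congr 1 <;> ring)

def len (u : L) : ℕ := max (max (nrm u.c1) (nrm u.c2)) (max (nrm u.c3) (nrm u.c4))

theorem len_mul (u v : L) : len (u * v) ≤ len u + len v := by
  have a1 := nrm_add u.c1 (R (cls u.c2) v.c1)
  have a2 := nrm_add u.c2 (R (cls u.c1) v.c2)
  have a3 := nrm_add u.c3 (R (cls u.c2 + cls u.c1) v.c3)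
  have a4 := nrm_add u.c4 (R (cls u.c2 - cls u.c1) v.c4)
  simp only [len, mul1, mul2, mul3, mul4, nrm_R] at *
  omega

theorem len_inv (u : L) : len u⁻¹ = len u := by
  simp only [len, inv1, inv2, inv3, inv4, nrm_R, nrm_neg]

theorem len_diff (u v : L) : len (u⁻¹ * v) = max (max (nrm (v.c1 - u.c1)) (nrm (v.c2 - u.c2)))
    (max (nrm (v.c3 - u.c3)) (nrm (v.c4 - u.c4))) := by
  have k : ∀ (a : ZMod 3) (x y : E), nrm (- R a x + R a y) = nrm (y - x) := by
    intro a x y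
    rw [← R_neg, ← R_add, nrm_R, neg_add_eq_sub]
  have e1 : - cls u.c2 + - cls u.c1 = - (cls u.c2 + cls u.c1) := by ring
  have e2 : - cls u.c2 - - cls u.c1 = - (cls u.c2 - cls u.c1) := by ring
  simp only [len, mul1, mul2, mul3, mul4, inv1, inv2, inv3, inv4, cls_neg, cls_R, e1, e2, k]

theorem nrm_fin (r : ℕ) : {v : E | nrm v ≤ r}.Finite :=
  ((Set.finite_Icc (-(r : ℤ)) r).prod (Set.finite_Icc (-(r : ℤ)) r)).subset fun v hv => by
    simp only [nrm, mem_ofPred_eq, mem_prod, mem_Icc] at *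
    omega

theorem len_fin (r : ℕ) : {u : L | len u ≤ r}.Finite :=
  ((((nrm_fin r).prod (nrm_fin r)).prod ((nrm_fin r).prod (nrm_fin r))).image
    fun x => (⟨x.1.1, x.1.2, x.2.1, x.2.2⟩ : L)).subset fun u hu =>
      ⟨((u.c1, u.c2), (u.c3, u.c4)), by
        simp only [len, mem_ofPred_eq, mem_prod] at *
        omega, rfl⟩

/-- the torsion-free subgroup -/
def Gam : Subgroup L where
  carrier := {u | cls u.c3 = cls u.c2 ∧ cls u.c4 = cls u.c2}
  mul_mem' := by
    rintro a b ⟨a1, a2⟩ ⟨b1, b2⟩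
    simp only [mem_ofPred_eq, mul2, mul3, mul4, cls_add, cls_R, a1, a2, b1, b2, and_self]
  one_mem' := ⟨rfl, rfl⟩
  inv_mem' := by
    rintro a ⟨a1, a2⟩
    simp only [mem_ofPred_eq, inv2, inv3, inv4, cls_neg, cls_R, a1, a2, and_self]

theorem mem_Gam (u : L) : u ∈ Gam ↔ cls u.c3 = cls u.c2 ∧ cls u.c4 = cls u.c2 := Iff.rfl

theorem R_sum (k : ZMod 3) (v : E) : v + R k (v + R k v) = if k = 0 then (3 : ℤ) • v else 0 := by
  rcases z3 k with rfl | rfl | rfl
  · simp only [R0, if_true]; ext <;> simp <;> ring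
  · rw [if_neg (by decide)]; simp only [R1]; ext <;> simp [rot]
  · rw [if_neg (by decide)]; simp only [R2]; ext <;> simp [rot] <;> ring

theorem pow_trans (t : L) (h1 : cls t.c1 = 0) (h2 : cls t.c2 = 0) (k : ℕ) :
    t ^ k = ⟨(k : ℤ) • t.c1, (k : ℤ) • t.c2, (k : ℤ) • t.c3, (k : ℤ) • t.c4⟩ := by
  induction k with
  | zero => refine L.ext ?_ ?_ ?_ ?_ <;> simp [one1, one2, one3, one4]
  | succ k ih =>
    rw [pow_succ', ih]
    refine L.ext ?_ ?_ ?_ ?_ <;>
      simp [mul1, mul2, mul3, mul4, h1, h2, add_smul, add_comm]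

theorem cube (g : L) : g ^ 3 = ⟨if cls g.c2 = 0 then (3 : ℤ) • g.c1 else 0,
    if cls g.c1 = 0 then (3 : ℤ) • g.c2 else 0,
    if cls g.c2 + cls g.c1 = 0 then (3 : ℤ) • g.c3 else 0,
    if cls g.c2 - cls g.c1 = 0 then (3 : ℤ) • g.c4 else 0⟩ := by
  rw [pow_succ', pow_two]
  refine L.ext ?_ ?_ ?_ ?_ <;> simp only [mul1, mul2, mul3, mul4, R_sum]

theorem tf_Gam (g : L) (hg : g ∈ Gam) (k : ℕ) (hk : 0 < k) (e : g ^ k = 1) : g = 1 := by
  have c3 : ∀ (p : Prop) [Decidable p] (v : E), cls (if p then (3 : ℤ) • v else 0) = 0 := by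
    intro p _ v
    split_ifs
    · rw [cls_smul]; push_cast; rw [three, zero_mul]
    · rfl
  have e3 : (g ^ 3) ^ k = 1 := by rw [← pow_mul, mul_comm, pow_mul, e, one_pow]
  rw [pow_trans _ (by rw [cube]; exact c3 _ _) (by rw [cube]; exact c3 _ _), cube] at e3
  have z : ∀ (p : Prop) [Decidable p] (v : E), (k : ℤ) • (if p then (3 : ℤ) • v else 0) = 0 →
      p → v = 0 := by
    intro p _ v h hp
    rw [if_pos hp, smul_smul] at h
    exact (smul_eq_zero.1 h).resolve_left (by omega)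
  have z1 := z _ _ (congrArg L.c1 e3)
  have z2 := z _ _ (congrArg L.c2 e3)
  have z3' := z _ _ (congrArg L.c3 e3)
  have z4 := z _ _ (congrArg L.c4 e3)
  have key : ∀ p q : ZMod 3, (p = 0 → q = 0) → (q = 0 → p = 0) → (p + q = 0 → p = 0) →
      (p - q = 0 → p = 0) → p = 0 ∧ q = 0 := by decide
  obtain ⟨p0, q0⟩ := key (cls g.c2) (cls g.c1) (fun h => by rw [z1 h]; rfl)
    (fun h => by rw [z2 h]; rfl) (fun h => by rw [← hg.1, z3' h]; rfl)
    (fun h => by rw [← hg.2, z4 h]; rfl)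
  exact L.ext (z1 p0) (z2 q0) (z3' (by rw [p0, q0, add_zero])) (z4 (by rw [p0, q0, sub_zero]))

def NN (k : ℕ) : ℕ := 4 ^ (k + 3)

theorem NN_cast (k : ℕ) : ((NN k : ℤ) : ZMod 3) = 1 := by
  have : (4 : ZMod 3) = 1 := rfl
  simp [NN, this]

theorem cls_NN (k : ℕ) (v : E) : cls ((NN k : ℤ) • v) = cls v := by
  rw [cls_smul, NN_cast, one_mul]

def scale (k : ℕ) : L →* L := MonoidHom.mk'
  (fun u => ⟨(NN k : ℤ) • u.c1, (NN k : ℤ) • u.c2, (NN k : ℤ) • u.c3, (NN k : ℤ) • u.c4⟩)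
  fun a b => by
    refine L.ext ?_ ?_ ?_ ?_ <;> simp only [mul1, mul2, mul3, mul4, cls_NN, R_smul, smul_add]

theorem scale_eq (k : ℕ) (u : L) : scale k u =
    ⟨(NN k : ℤ) • u.c1, (NN k : ℤ) • u.c2, (NN k : ℤ) • u.c3, (NN k : ℤ) • u.c4⟩ := rfl

theorem len_scale (k : ℕ) (u : L) : len (scale k u) = NN k * len u := by
  simp only [len, scale_eq, nrm_smul, Nat.mul_max_mul_left]

theorem NN_pos (k : ℕ) : 0 < NN k := by unfold NN; positivity

theorem scale_inj (k : ℕ) : Function.Injective (scale k) := by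
  intro a b h
  have ne : (NN k : ℤ) ≠ 0 := by have := NN_pos k; omega
  exact L.ext (smul_right_injective E ne (congrArg L.c1 h))
    (smul_right_injective E ne (congrArg L.c2 h)) (smul_right_injective E ne (congrArg L.c3 h))
    (smul_right_injective E ne (congrArg L.c4 h))

def phi (k : ℕ) : Gam →* Gam := ((scale k).comp Gam.subtype).codRestrict Gam fun u => by
  have := u.2
  simp only [MonoidHom.comp_apply, Subgroup.subtype_apply, mem_Gam, scale_eq, cls_NN] at *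
  exact this

theorem phi_val (k : ℕ) (u : Gam) : (phi k u : L) = scale k u := rfl

def dv (M : ℤ) (v : E) : E := (v.1 / M, v.2 / M)
def md (M : ℤ) (v : E) : E := (v.1 % M, v.2 % M)

theorem dv_md (M : ℤ) (v : E) : M • dv M v + md M v = v := by
  ext <;> simp [dv, md, Int.mul_ediv_add_emod]

theorem nrm_md (M : ℕ) (hM : 0 < M) (v : E) : nrm (md M v) ≤ M := by
  have a1 := Int.emod_nonneg v.1 (show (M : ℤ) ≠ 0 by omega)
  have a2 := Int.emod_nonneg v.2 (show (M : ℤ) ≠ 0 by omega)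
  have a3 := Int.emod_lt_of_pos v.1 (show (0 : ℤ) < M by omega)
  have a4 := Int.emod_lt_of_pos v.2 (show (0 : ℤ) < M by omega)
  simp only [nrm, md]
  omega

theorem cls3 (v : E) : cls ((3 : ℤ) • v) = 0 := by
  rw [cls_smul]; push_cast; rw [three, zero_mul]

/-- translations -/
def tr (a b c d : E) : Gam := ⟨⟨(3 : ℤ) • a, (3 : ℤ) • b, (3 : ℤ) • c, (3 : ℤ) • d⟩, by
  simp only [mem_Gam, cls3, and_self]⟩

theorem tr_mul (a b c d : E) (v : L) : (tr a b c d : L) * v =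
    ⟨(3 : ℤ) • a + v.c1, (3 : ℤ) • b + v.c2, (3 : ℤ) • c + v.c3, (3 : ℤ) • d + v.c4⟩ := by
  refine L.ext ?_ ?_ ?_ ?_ <;> simp only [tr, mul1, mul2, mul3, mul4, cls3, R0, add_zero, sub_zero]

theorem decomp (M : ℕ) (hM : 0 < M) (v : Gam) : ∃ (a b c d : E) (r : Gam),
    v = tr ((M : ℤ) • a) ((M : ℤ) • b) ((M : ℤ) • c) ((M : ℤ) • d) * r ∧ len r ≤ 3 * M := by
  let Q : ℤ := ((3 * M : ℕ) : ℤ)
  refine ⟨dv Q v.1.c1, dv Q v.1.c2, dv Q v.1.c3, dv Q v.1.c4,
    (tr ((M : ℤ) • dv Q v.1.c1) ((M : ℤ) • dv Q v.1.c2) ((M : ℤ) • dv Q v.1.c3)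
      ((M : ℤ) • dv Q v.1.c4))⁻¹ * v, by rw [mul_inv_cancel_left], ?_⟩
  have k : ∀ x : E, nrm (x - (3 : ℤ) • (M : ℤ) • dv Q x) ≤ 3 * M := by
    intro x
    have e : x - (3 : ℤ) • (M : ℤ) • dv Q x = md Q x := by
      rw [smul_smul, show (3 : ℤ) * M = Q by simp [Q], sub_eq_iff_eq_add', dv_md]
    rw [e]
    exact nrm_md (3 * M) (by omega) x
  rw [Subgroup.coe_mul, Subgroup.coe_inv, len_diff]
  simp only [tr, max_le_iff, k, and_self]

theorem phi_tr (k : ℕ) (a b c d : E) : phi k (tr a b c d) =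
    tr ((NN k : ℤ) • a) ((NN k : ℤ) • b) ((NN k : ℤ) • c) ((NN k : ℤ) • d) := by
  refine Subtype.ext ?_
  rw [phi_val, scale_eq]
  simp only [tr, smul_comm (NN k : ℤ) (3 : ℤ)]

theorem cocpt (m : ℕ) (v : Gam) : ∃ a r : Gam, v = phi m a * r ∧ len r ≤ 3 * NN m := by
  obtain ⟨a, b, c, d, r, e, h⟩ := decomp (NN m) (NN_pos m) v
  exact ⟨tr a b c d, r, by rw [phi_tr]; exact e, h⟩

instance : Infinite Gam := Infinite.of_injective (fun n : ℤ => tr (n, 0) 0 0 0) fun a b h => by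
  have := congrArg (fun u : Gam => u.1.c1.1) h
  simp [tr] at this
  exact this

instance : Countable L :=
  Function.Injective.countable (f := fun u : L => (u.c1, u.c2, u.c3, u.c4)) fun a b h => by
    simp only [Prod.mk.injEq] at h
    exact L.ext h.1 h.2.1 h.2.2.1 h.2.2.2

end Pool.Agent.H260Z.DAD
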