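import Pool.Agent.H260Z.DAD.Col
import Pool.Agent.H260Z.DAD.Dyn

/-!
The fixed component property for the crystallographic group, and the final assembly.
-/

set_option autoImplicit false

namespace Pool.Agent.H260Z.DAD

open Set Relation

def AE (a b : E) : Prop := nrm (b - a) ≤ 1

theorem AE_iff (a b : E) : AE a b ↔ (b.1 - a.1).natAbs ≤ 1 ∧ (b.2 - a.2).natAbs ≤ 1 ∧
    (b.1 - a.1 - (b.2 - a.2)).natAbs ≤ 1 := by
  simp only [AE, nrm, max_le_iff, Prod.fst_sub, Prod.snd_sub, and_assoc]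

theorem AE_symm (a b : E) (h : AE a b) : AE b a := by
  rw [AE_iff] at *; omega

theorem AE_refl (a : E) : AE a a := by
  rw [AE_iff]; omega

theorem h1_AE : H1 AE :=
  h1_prod (A := A1) (B := A1) h1_A1 h1_A1 conn_A1 (fun u v h => by unfold A1 at *; omega)
    AE_symm AE_refl (fun v v' w h => by rw [AE_iff]; unfold A1 at h; dsimp only; omega)
    (fun v w w' h => by rw [AE_iff]; unfold A1 at h; dsimp only; omega)
    (fun x y h => by rw [AE_iff] at h; unfold A1; omega)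
    (fun v v' w w' h h' => by rw [AE_iff, AE_iff]; unfold A1 at h h'; dsimp only; omega) 0

theorem conn_AE (a b : E) : ReflTransGen AE a b :=
  conn_prod (A := A1) (B := A1) conn_A1 conn_A1
    (fun v v' w h => by rw [AE_iff]; unfold A1 at h; dsimp only; omega)
    (fun v w w' h => by rw [AE_iff]; unfold A1 at h; dsimp only; omega) a b

/-- strong product -/
def SP {V : Type} (A : V → V → Prop) (x y : V × V) : Prop := A x.1 y.1 ∧ A x.2 y.2

theorem sp_good {V : Type} {A : V → V → Prop} (h : H1 A) (c : ∀ u v, ReflTransGen A u v)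
    (s : ∀ u v, A u v → A v u) (r : ∀ u, A u u) (v₀ : V) :
    H1 (SP A) ∧ (∀ u v, ReflTransGen (SP A) u v) ∧ (∀ u v, SP A u v → SP A v u) ∧
      ∀ u, SP A u u := by
  have s' : ∀ u v, SP A u v → SP A v u := fun u v h => ⟨s _ _ h.1, s _ _ h.2⟩
  have r' : ∀ u, SP A u u := fun u => ⟨r _, r _⟩
  exact ⟨h1_prod h h c s s' r' (fun _ _ _ a => ⟨a, r _⟩) (fun _ _ _ a => ⟨r _, a⟩)
    (fun _ _ a => a) (fun _ _ _ _ a b => Or.inl ⟨a, b⟩) v₀,
    conn_prod c c (fun _ _ _ a => ⟨a, r _⟩) (fun _ _ _ a => ⟨r _, a⟩), s', r'⟩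

def AL (u v : L) : Prop := len (u⁻¹ * v) ≤ 1

theorem AL_iff (u v : L) : AL u v ↔
    SP (SP AE) ((u.c1, u.c2), (u.c3, u.c4)) ((v.c1, v.c2), (v.c3, v.c4)) := by
  simp only [AL, len_diff, max_le_iff, SP, AE]

theorem AL_good : H1 AL ∧ (∀ u v, ReflTransGen AL u v) ∧ ∀ u v, AL u v → AL v u := by
  obtain ⟨a1, a2, a3, a4⟩ := sp_good h1_AE conn_AE AE_symm AE_refl 0
  obtain ⟨b1, b2, b3, -⟩ := sp_good a1 a2 a3 a4 0
  let g : (E × E) × (E × E) → L := fun x => ⟨x.1.1, x.1.2, x.2.1, x.2.2⟩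
  have hg : ∀ x y, SP (SP AE) x y → AL (g x) (g y) := fun x y h => (AL_iff _ _).2 h
  refine ⟨fun f hf => ?_, fun u v => ?_, fun u v h => ?_⟩
  · obtain ⟨h, hh⟩ := b1 (fun x y => f (g x) (g y))
      fun x y z a b c => hf _ _ _ (hg _ _ a) (hg _ _ b) (hg _ _ c)
    exact ⟨fun u => h ((u.c1, u.c2), (u.c3, u.c4)), fun u v a => hh _ _ ((AL_iff _ _).1 a)⟩
  · exact ReflTransGen.lift g hg _ _
      (b2 ((u.c1, u.c2), (u.c3, u.c4)) ((v.c1, v.c2), (v.c3, v.c4)))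
  · exact (AL_iff _ _).2 (b3 _ _ ((AL_iff _ _).1 h))

def rep (v : L) : L :=
  ⟨0, 0, (((cls v.c3 - cls v.c2).val : ℕ), 0), (((cls v.c4 - cls v.c2).val : ℕ), 0)⟩

theorem cls_val (a : ZMod 3) : cls (((a.val : ℕ) : ℤ), 0) = a := by
  simp [cls]

def nu (v : L) : Gam := ⟨v * (rep v)⁻¹, by
  simp only [mem_Gam, mul2, mul3, mul4, inv2, inv3, inv4, cls_add, cls_R, cls_neg, rep, cls_val,
    cls_zero]
  constructor <;> ring⟩

theorem rep_mul (g : Gam) (v : L) : rep (g * v) = rep v := by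
  have := g.2
  simp only [rep, mul2, mul3, mul4, cls_add, cls_R, this.1, this.2, add_sub_add_left_eq_sub]

theorem nu_mul (g : Gam) (v : L) : nu (g * v) = g * nu v :=
  Subtype.ext (by simp only [nu, rep_mul, Subgroup.coe_mul, mul_assoc])

theorem len_rep (v : L) : len (rep v) ≤ 2 := by
  have a := (cls v.c3 - cls v.c2).val_lt
  have b := (cls v.c4 - cls v.c2).val_lt
  simp only [len, rep, nrm, Prod.fst_zero, Prod.snd_zero]
  omega

theorem len_nu (u v : L) (h : AL u v) : len ((nu u)⁻¹ * nu v : Gam) ≤ 5 := by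
  have e : (((nu u)⁻¹ * nu v : Gam) : L) = rep u * (u⁻¹ * v * (rep v)⁻¹) := by
    simp only [nu, Subgroup.coe_mul, Subgroup.coe_inv]
    group
  have a1 := len_mul (rep u) (u⁻¹ * v * (rep v)⁻¹)
  have a2 := len_mul (u⁻¹ * v) (rep v)⁻¹
  have a3 := len_rep u
  have a4 := len_rep v
  unfold AL at h
  rw [len_inv] at a2
  rw [e]
  omega

theorem bd_trans {Γ : Type} [Group Γ] (ρ : Γ → ℕ) (r1 : ρ 1 = 0) (rinv : ∀ x, ρ x⁻¹ = ρ x)
    (rmul : ∀ x y, ρ (x * y) ≤ ρ x + ρ y)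
    (r4 : ∀ y z w, ρ y + ρ (z⁻¹ * w) ≤ ρ z + ρ (y⁻¹ * w) ∨ ρ y + ρ (z⁻¹ * w) ≤ ρ w + ρ (y⁻¹ * z))
    (T : E → Γ) (hT : ∀ a b, T (a + b) = T a * T b) (g : Γ) (hg : ∀ a, g * T a = T (rot a) * g) :
    ∃ B, ∀ a, ρ (T a) ≤ B := by
  have T0 : T 0 = 1 := by
    have := hT 0 0
    rw [add_zero] at this
    exact (mul_eq_left.1 this.symm)
  have Tn : ∀ a, T (-a) = (T a)⁻¹ := fun a => by
    rw [eq_inv_iff_mul_eq_one, ← hT, neg_add_cancel, T0]
  have Ts : ∀ a b, T (b - a) = (T a)⁻¹ * T b := fun a b => by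
    rw [← Tn, ← hT, neg_add_eq_sub]
  refine bounded_of_rot (fun a => ρ (T a)) (ρ g + ρ g) (by simp only [T0, r1])
    (fun a => by simp only [Tn, rinv]) (fun a b => by simp only [hT, rmul])
    (fun a b c => by simp only [Ts]; exact r4 _ _ _) fun a => ?_
  have e : T (rot a) = g * T a * g⁻¹ := by rw [hg, mul_inv_cancel_right]
  have a1 := rmul (g * T a) g⁻¹
  have a2 := rmul g (T a)
  rw [rinv] at a1
  simp only [e]
  omega

theorem tr_add (a b c d a' b' c' d' : E) :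
    tr (a + a') (b + b') (c + c') (d + d') = tr a b c d * tr a' b' c' d' :=
  Subtype.ext (by rw [Subgroup.coe_mul, tr_mul]; simp only [tr, smul_add])

def gp : Gam := ⟨⟨0, (1, 0), (1, 0), (1, 0)⟩, ⟨rfl, rfl⟩⟩
def gq : Gam := ⟨⟨(1, 0), 0, 0, 0⟩, ⟨rfl, rfl⟩⟩

theorem cls10 : cls (1, 0) = 1 := rfl

theorem gp_tr (a c d : E) : gp * tr a 0 c d = tr (rot a) 0 (rot c) (rot d) * gp := by
  refine Subtype.ext ?_
  rw [Subgroup.coe_mul, Subgroup.coe_mul, tr_mul]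
  refine L.ext ?_ ?_ ?_ ?_ <;>
    simp only [gp, tr, mul1, mul2, mul3, mul4, cls10, cls_zero, add_zero, sub_zero, R_smul, R1, R0,
      zero_add, add_comm]

theorem gq_tr (b : E) : gq * tr 0 b 0 0 = tr 0 (rot b) 0 0 * gq := by
  refine Subtype.ext ?_
  rw [Subgroup.coe_mul, Subgroup.coe_mul, tr_mul]
  refine L.ext ?_ ?_ ?_ ?_ <;>
    simp only [gq, tr, mul1, mul2, mul3, mul4, cls10, cls_zero, add_zero, R_smul, R1, R0,
      zero_add, add_comm, smul_zero, R_zero]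

theorem bd_Gam (ρ : Gam → ℕ) (r1 : ρ 1 = 0) (rinv : ∀ x, ρ x⁻¹ = ρ x)
    (rmul : ∀ x y, ρ (x * y) ≤ ρ x + ρ y)
    (r4 : ∀ y z w, ρ y + ρ (z⁻¹ * w) ≤ ρ z + ρ (y⁻¹ * w) ∨ ρ y + ρ (z⁻¹ * w) ≤ ρ w + ρ (y⁻¹ * z)) :
    ∃ B, ∀ g, ρ g ≤ B := by
  have r0 : rot 0 = 0 := rfl
  obtain ⟨B1, h1⟩ := bd_trans ρ r1 rinv rmul r4 (fun a => tr a 0 0 0)
    (fun a b => by rw [← tr_add, add_zero]) gp fun a => by rw [gp_tr, r0]
  obtain ⟨B2, h2⟩ := bd_trans ρ r1 rinv rmul r4 (fun a => tr 0 a 0 0)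
    (fun a b => by rw [← tr_add, add_zero]) gq gq_tr
  obtain ⟨B3, h3⟩ := bd_trans ρ r1 rinv rmul r4 (fun a => tr 0 0 a 0)
    (fun a b => by rw [← tr_add, add_zero]) gp fun a => by rw [gp_tr, r0]
  obtain ⟨B4, h4⟩ := bd_trans ρ r1 rinv rmul r4 (fun a => tr 0 0 0 a)
    (fun a b => by rw [← tr_add, add_zero]) gp fun a => by rw [gp_tr, r0]
  have fin : {r : Gam | len r ≤ 3}.Finite :=
    (len_fin 3).preimage (f := Subtype.val) Subtype.val_injective.injOn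
  obtain ⟨B5, h5⟩ := (fin.image ρ).bddAbove
  refine ⟨B1 + B2 + B3 + B4 + B5, fun g => ?_⟩
  obtain ⟨a, b, c, d, r, e, h⟩ := decomp 1 one_pos g
  simp only [Nat.cast_one, one_smul] at e
  have e' : tr a b c d = tr a 0 0 0 * tr 0 b 0 0 * tr 0 0 c 0 * tr 0 0 0 d := by
    simp only [← tr_add, add_zero, zero_add]
  have a1 := rmul (tr a b c d) r
  have a2 := rmul (tr a 0 0 0 * tr 0 b 0 0 * tr 0 0 c 0) (tr 0 0 0 d)
  have a3 := rmul (tr a 0 0 0 * tr 0 b 0 0) (tr 0 0 c 0)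
  have a4 := rmul (tr a 0 0 0) (tr 0 b 0 0)
  have b1 := h1 a
  have b2 := h2 b
  have b3 := h3 c
  have b4 := h4 d
  have b5 : ρ r ≤ B5 := h5 ⟨r, h, rfl⟩
  rw [← e] at a1
  rw [← e'] at a2
  omega

theorem fa_Gam (m : ℕ) (κ : Gam → Prop) (hκ : ∀ a v, κ (phi m a * v) ↔ κ v) :
    ∃ g₀ : Gam, ∀ a, ReflTransGen (fun u v : Gam => len (u⁻¹ * v : Gam) ≤ 5 ∧ (κ u ↔ κ v)) g₀
      (phi m a * g₀) := by
  obtain ⟨h1, hc, hs⟩ := AL_good
  let κ' : L → Prop := fun v => κ (nu v)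
  let ψ : Gam →* Equiv.Perm L := (MulAction.toPermHom L L).comp (Gam.subtype.comp (phi m))
  have hψ : ∀ a v, ψ a v = (phi m a : L) * v := fun _ _ => rfl
  have hk : ∀ a v, κ' (ψ a v) ↔ κ' v := fun a v => by simp only [κ', hψ, nu_mul, hκ]
  have hinv : ∀ g u v, dd AL κ' (ψ g u) (ψ g v) = dd AL κ' u v := fun g u v =>
    dd_map hs hc (ψ g) (fun x y => by simp [AL, hψ, mul_assoc]) (hk g) u v
  have dist : ∀ x y, dd AL κ' (ψ x 1) (ψ y 1) = dd AL κ' 1 (ψ (x⁻¹ * y) 1) := by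
    intro x y
    rw [← hinv x 1, ← Equiv.Perm.mul_apply, ← map_mul, mul_inv_cancel_left]
  obtain ⟨B, hB⟩ := bd_Gam (fun g => dd AL κ' 1 (ψ g 1)) (by simp [dd_self])
    (fun x => by
      have := dist x 1
      rw [mul_one, map_one ψ, Equiv.Perm.one_apply, dd_comm] at this
      exact this.symm)
    (fun x y => by
      have := dd_tri (κ := κ') hs hc 1 (ψ x 1) (ψ (x * y) 1)
      rwa [dist, inv_mul_cancel_left] at this)
    (fun y z w => by
      have := dd_four (κ := κ') hs hc 1 (ψ y 1) (ψ z 1) (ψ w 1)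
      simpa only [dist] using this)
  obtain ⟨u, hu⟩ := fixed_of_bounded (dd AL κ') ψ κ' dd_comm (dd_four hs hc)
    (fun u v h => geod hs hc h1 fun c => h (dd_of_comp hs c))
    (fun u v h => (comp_of_dd hs hc h1 h).col) hinv hk 1 B hB
  refine ⟨nu u, fun a => ?_⟩
  have := ReflTransGen.lift (p := fun u v : Gam => len (u⁻¹ * v : Gam) ≤ 5 ∧ (κ u ↔ κ v)) nu
    (fun x y s => ⟨len_nu x y s.1, s.2⟩) _ _ (comp_of_dd hs hc h1 (hu a))
  rw [← nu_mul]
  exact this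

noncomputable def data : Data Gam 12 where
  l u := len u
  l_mul a b := len_mul a b
  l_inv a := len_inv a
  fin r := (len_fin r).preimage (f := Subtype.val) Subtype.val_injective.injOn
  N := NN
  N_two k := by
    have := Nat.one_le_pow k 4 (by norm_num)
    unfold NN
    rw [pow_add]
    omega
  N_mono a b h := Nat.pow_le_pow_right (by norm_num) (by omega)
  φ := phi
  φ_len m a := len_scale m a
  φ_inj m a b h := Subtype.ext (scale_inj m (congrArg Subtype.val h))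
  cocpt := cocpt
  per k u := per k u
  per_inv k m a v h := per_inv k m a v h
  per_bd k u v c := per_bd k u v (ReflTransGen.lift Subtype.val (fun _ _ s => s) _ _ c)
  c := 5
  fa := fa_Gam
  tf g k hk e := Subtype.ext (tf_Gam g g.2 k hk (congrArg Subtype.val e))

theorem main : ∃ (G X : Type) (_ : TopologicalSpace G) (_ : TopologicalSpace X)
    (_ : LocallyCompactSpace G) (_ : T2Space G) (_ : SecondCountableTopology G)
    (_ : CompactSpace X) (_ : TotallyDisconnectedSpace X) (𝒢 : EtaleGroupoid G X),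
    Principal 𝒢 ∧ DADAtMost 𝒢 12 ∧ ¬ FDC 𝒢 := by
  letI : TopologicalSpace Gam := ⊥
  haveI : DiscreteTopology Gam := ⟨rfl⟩
  exact ⟨Gam × data.XX, data.XX, inferInstance, inferInstance, inferInstance, inferInstance,
    inferInstance, inferInstance, inferInstance, transf Gam data.XX, data.principal, data.dad,
    data.not_fdc⟩

end Pool.Agent.H260Z.DAD
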