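import Mathlib

/-!
Two-colourings of a graph whose clique complex has no first cohomology: the monochromatic
components form a tree, recorded as a pseudo-metric counting separating half-spaces.
-/

set_option autoImplicit false

namespace Pool.Agent.H260Z.DAD

open Relation Set

/-- every cocycle on triangles is a coboundary -/
def H1 {V : Type} (A : V → V → Prop) : Prop :=
  ∀ f : V → V → Prop, (∀ u v w, A u v → A v w → A u w → (f u w ↔ ¬ (f u v ↔ f v w))) →
    ∃ h : V → Prop, ∀ u v, A u v → (f u v ↔ ¬ (h u ↔ h v))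

section tree

variable {V : Type} (A : V → V → Prop) (κ : V → Prop)

def Bi (e : V × V) : Prop := A e.1 e.2 ∧ ¬ κ e.1 ∧ κ e.2

def Step (e e' : V × V) : Prop :=
  Bi A κ e ∧ Bi A κ e' ∧ ((e.1 = e'.1 ∧ A e.2 e'.2) ∨ (e.2 = e'.2 ∧ A e.1 e'.1))

def Rel : V × V → V × V → Prop := ReflTransGen (Step A κ)

def Wit (e : V × V) (H : Set V) : Prop :=
  Bi A κ e ∧ ∀ u v, A u v → ((u ∉ H ∧ v ∈ H) ↔ Rel A κ e (u, v))

def HS (H : Set V) : Prop := ∃ e, Wit A κ e H

def Sep (u v : V) : Set (Set V) := {H | HS A κ H ∧ ¬ (u ∈ H ↔ v ∈ H)}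

noncomputable def dd (u v : V) : ℕ := (Sep A κ u v).ncard

def Comp : V → V → Prop := ReflTransGen fun a b => A a b ∧ (κ a ↔ κ b)

variable {A κ}

theorem Rel.bi {e e' : V × V} (h : Rel A κ e e') (he : Bi A κ e) : Bi A κ e' := by
  induction h with
  | refl => exact he
  | tail _ s _ => exact s.2.1

theorem Rel.symm (hs : ∀ u v, A u v → A v u) {e e' : V × V} (h : Rel A κ e e') :
    Rel A κ e' e := by
  induction h with
  | refl => exact ReflTransGen.refl
  | tail _ s ih =>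
    refine ReflTransGen.head ⟨s.2.1, s.1, ?_⟩ ih
    rcases s.2.2 with ⟨a, b⟩ | ⟨a, b⟩
    · exact Or.inl ⟨a.symm, hs _ _ b⟩
    · exact Or.inr ⟨a.symm, hs _ _ b⟩

theorem rel_left (hs : ∀ u v, A u v → A v u) {e : V × V} (he : Bi A κ e) {u v w : V}
    (h2 : A v w) (h3 : A u w) (hc : κ v ↔ κ w) (h : Rel A κ e (u, v) ∨ Rel A κ e (v, u)) :
    Rel A κ e (u, w) ∨ Rel A κ e (w, u) := by
  rcases h with h | h
  · have b := h.bi he
    exact Or.inl (h.tail ⟨b, ⟨h3, b.2.1, hc.1 b.2.2⟩, Or.inl ⟨rfl, h2⟩⟩)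
  · have b := h.bi he
    exact Or.inr (h.tail ⟨b, ⟨hs _ _ h3, fun x => b.2.1 (hc.2 x), b.2.2⟩, Or.inr ⟨rfl, h2⟩⟩)

theorem rel_col {e : V × V} (he : Bi A κ e) {u v : V}
    (h : Rel A κ e (u, v) ∨ Rel A κ e (v, u)) : ¬ (κ u ↔ κ v) := by
  rcases h with h | h
  · have b := h.bi he
    exact fun x => b.2.1 (x.2 b.2.2)
  · have b := h.bi he
    exact fun x => b.2.1 (x.1 b.2.2)

theorem exists_wit (hs : ∀ u v, A u v → A v u) (h1 : H1 A) {e : V × V} (he : Bi A κ e) :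
    ∃ H, Wit A κ e H := by
  obtain ⟨h, hh⟩ := h1 (fun u v => Rel A κ e (u, v) ∨ Rel A κ e (v, u)) (by
    intro u v w a b c
    have r1 := rel_col he (u := u) (v := v)
    have r2 := rel_col he (u := v) (v := w)
    have r3 := rel_col he (u := u) (v := w)
    have s1 := rel_left hs he (u := u) b c
    have s1' := rel_left hs he (u := u) (hs _ _ b) a
    have s2 := rel_left hs he (u := w) a (hs _ _ b)
    have s2' := rel_left hs he (u := w) (hs _ _ a) (hs _ _ c)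
    have s3 := rel_left hs he (u := v) c b
    have s3' := rel_left hs he (u := v) (hs _ _ c) (hs _ _ a)
    by_cases k1 : κ u <;> by_cases k2 : κ v <;> by_cases k3 : κ w <;>
      simp only [k1, k2, k3, not_true, not_false_iff, iff_true, iff_false, true_iff,
        false_iff, forall_const, imp_false, not_not, IsEmpty.forall_iff, implies_true] at * <;>
      tauto)
  have key : ∀ h : V → Prop, (∀ u v, A u v →
      ((Rel A κ e (u, v) ∨ Rel A κ e (v, u)) ↔ ¬ (h u ↔ h v))) → h e.2 → Wit A κ e {x | h x} := by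
    intro h hh h2
    have ind : ∀ e', Rel A κ e e' → ¬ h e'.1 ∧ h e'.2 := by
      intro e' r
      induction r with
      | refl =>
        have := (hh e.1 e.2 he.1).1 (Or.inl ReflTransGen.refl)
        tauto
      | @tail b c r s ih =>
        have := (hh c.1 c.2 s.2.1.1).1 (Or.inl (r.tail s))
        rcases s.2.2 with ⟨a, _⟩ | ⟨a, _⟩
        · rw [a] at ih; tauto
        · rw [a] at ih; tauto
    refine ⟨he, fun u v a => ⟨fun x => ?_, fun x => ind _ x⟩⟩
    rcases (hh u v a).2 (fun y => x.1 (y.2 x.2)) with r | r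
    · exact r
    · exact absurd x.2 (ind _ r).1
  by_cases h2 : h e.2
  · exact ⟨_, key h hh h2⟩
  · refine ⟨_, key (fun x => ¬ h x) (fun u v a => ?_) h2⟩
    rw [hh u v a]; tauto

theorem HS.orient {H : Set V} (hH : HS A κ H) {u v : V} (a : A u v) (h1 : u ∉ H) (h2 : v ∈ H) :
    ¬ κ u ∧ κ v := by
  obtain ⟨e, he, h⟩ := hH
  exact (((h u v a).1 ⟨h1, h2⟩).bi he).2

theorem HS.mono (hs : ∀ u v, A u v → A v u) {H : Set V} (hH : HS A κ H) {u v : V} (a : A u v)
    (c : κ u ↔ κ v) : u ∈ H ↔ v ∈ H := by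
  have o1 := hH.orient a
  have o2 := hH.orient (hs _ _ a)
  tauto

theorem HS.comp (hs : ∀ u v, A u v → A v u) {H : Set V} (hH : HS A κ H) {u v : V}
    (c : Comp A κ u v) : u ∈ H ↔ v ∈ H := by
  induction c with
  | refl => rfl
  | tail _ s ih => exact ih.trans (hH.mono hs s.1 s.2)

theorem HS.uniq' (hs : ∀ u v, A u v → A v u) (hc : ∀ u v, ReflTransGen A u v) {H H' : Set V}
    (hH : HS A κ H) (hH' : HS A κ H') {u v : V} (a : A u v) (h1 : u ∉ H) (h2 : v ∈ H)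
    (h3 : u ∉ H') (h4 : v ∈ H') : H = H' := by
  obtain ⟨e, he, h⟩ := hH
  obtain ⟨e', he', h'⟩ := hH'
  have r := (h u v a).1 ⟨h1, h2⟩
  have r' := (h' u v a).1 ⟨h3, h4⟩
  have eqv : ∀ x, Rel A κ e x ↔ Rel A κ e' x := fun x =>
    ⟨fun y => (r'.trans (r.symm hs)).trans y, fun y => (r.trans (r'.symm hs)).trans y⟩
  ext x
  induction hc v x with
  | refl => tauto
  | @tail b c _ s ih =>
    have p1 := (h b c s).trans ((eqv _).trans (h' b c s).symm)
    have p2 := (h c b (hs _ _ s)).trans ((eqv _).trans (h' c b (hs _ _ s)).symm)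
    tauto

theorem HS.uniq (hs : ∀ u v, A u v → A v u) (hc : ∀ u v, ReflTransGen A u v) {H H' : Set V}
    (hH : HS A κ H) (hH' : HS A κ H') {u v : V} (a : A u v) (h1 : ¬ (u ∈ H ↔ v ∈ H))
    (h2 : ¬ (u ∈ H' ↔ v ∈ H')) : H = H' := by
  have o1 := hH.orient a
  have o2 := hH.orient (hs _ _ a)
  have o3 := hH'.orient a
  have o4 := hH'.orient (hs _ _ a)
  by_cases k : u ∈ H
  · exact hH.uniq' hs hc hH' (hs _ _ a) (by tauto) k (by tauto) (by tauto)
  · exact hH.uniq' hs hc hH' a k (by tauto) (by tauto) (by tauto)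

theorem sep_sub (u v w : V) : Sep A κ u w ⊆ Sep A κ u v ∪ Sep A κ v w := by
  intro H hH
  simp only [Sep, mem_union, mem_ofPred_eq] at *
  tauto

theorem sep_fin (hs : ∀ u v, A u v → A v u) (hc : ∀ u v, ReflTransGen A u v) (u v : V) :
    (Sep A κ u v).Finite := by
  induction hc u v with
  | refl => exact Set.finite_empty.subset fun H hH => (hH.2 Iff.rfl).elim
  | @tail b c _ s ih =>
    refine (ih.union (Set.Subsingleton.finite ?_)).subset (sep_sub u b c)
    intro H hH H' hH'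
    exact hH.1.uniq hs hc hH'.1 s hH.2 hH'.2

theorem side (hs : ∀ u v, A u v → A v u) (hc : ∀ u v, ReflTransGen A u v) {H H' : Set V}
    (hH : HS A κ H) (hH' : HS A κ H') (ne : H ≠ H') :
    ∃ (β : Prop) (z : V), (z ∈ H' ↔ β) ∧
      ∀ x y, A x y → ¬ (x ∈ H ↔ y ∈ H) → (x ∈ H' ↔ β) := by
  obtain ⟨e, he, h⟩ := id hH
  have ns : ∀ c, Rel A κ e c → (c.1 ∈ H' ↔ c.2 ∈ H') := by
    intro c r
    by_contra k
    have a := (r.bi he).1
    have := (h c.1 c.2 a).2 r
    exact ne (hH.uniq hs hc hH' a (by tauto) k)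
  have ind : ∀ c, Rel A κ e c → (c.1 ∈ H' ↔ e.1 ∈ H') := by
    intro c r
    induction r with
    | refl => rfl
    | @tail b c r s ih =>
      have n1 := ns b r
      have n2 := ns c (r.tail s)
      rcases s.2.2 with ⟨a, _⟩ | ⟨a, _⟩
      · rw [← a]; exact ih
      · rw [a] at n1; tauto
  refine ⟨e.1 ∈ H', e.1, Iff.rfl, fun x y a k => ?_⟩
  by_cases m : x ∈ H
  · have r := (h y x (hs _ _ a)).1 (by tauto)
    exact (ns _ r).symm.trans (ind _ r)
  · exact ind _ ((h x y a).1 (by tauto))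

theorem nested (hs : ∀ u v, A u v → A v u) (hc : ∀ u v, ReflTransGen A u v) {H H' : Set V}
    (hH : HS A κ H) (hH' : HS A κ H') (ne : H ≠ H') :
    ∃ α β : Prop, ∀ p, ¬ (¬ (p ∈ H ↔ α) ∧ ¬ (p ∈ H' ↔ β)) := by
  obtain ⟨β, z, hz, hβ⟩ := side hs hc hH hH' ne
  obtain ⟨α, -, -, hα⟩ := side hs hc hH' hH ne.symm
  refine ⟨α, β, fun p hp => ?_⟩
  have : ∀ q, ¬ (q ∈ H ↔ α) ∧ ¬ (q ∈ H' ↔ β) := by
    intro q
    induction hc p q with
    | refl => exact hp
    | @tail b c _ s ih =>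
      have a1 := hβ b c s
      have a2 := hα b c s
      tauto
  exact (this z).2 hz

theorem dd_self (u : V) : dd A κ u u = 0 := by
  have : Sep A κ u u = ∅ := Set.eq_empty_of_forall_notMem fun H hH => hH.2 Iff.rfl
  rw [dd, this, Set.ncard_empty]

theorem dd_comm (u v : V) : dd A κ u v = dd A κ v u := by
  have : Sep A κ u v = Sep A κ v u := by
    ext H
    simp only [Sep, mem_ofPred_eq]
    tauto
  rw [dd, this, dd]

theorem dd_tri (hs : ∀ u v, A u v → A v u) (hc : ∀ u v, ReflTransGen A u v) (u v w : V) :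
    dd A κ u w ≤ dd A κ u v + dd A κ v w :=
  (Set.ncard_le_ncard (sep_sub u v w) ((sep_fin hs hc u v).union (sep_fin hs hc v w))).trans
    (Set.ncard_union_le _ _)

theorem dd_four_aux (hs : ∀ u v, A u v → A v u) (hc : ∀ u v, ReflTransGen A u v) (x y z w : V)
    (h : ∀ H, HS A κ H → ¬ ((x ∈ H ↔ z ∈ H) ∧ (y ∈ H ↔ w ∈ H) ∧ ¬ (x ∈ H ↔ y ∈ H))) :
    dd A κ x y + dd A κ z w ≤ dd A κ x z + dd A κ y w := by
  unfold dd
  rw [← Set.ncard_union_add_ncard_inter _ _ (sep_fin hs hc _ _) (sep_fin hs hc _ _),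
    ← Set.ncard_union_add_ncard_inter _ _ (sep_fin hs hc _ _) (sep_fin hs hc _ _)]
  refine Nat.add_le_add (Set.ncard_le_ncard ?_ ((sep_fin hs hc _ _).union (sep_fin hs hc _ _)))
    (Set.ncard_le_ncard ?_ ((sep_fin hs hc _ _).inter_of_left _))
  · intro H hH
    have := h H
    simp only [Sep, mem_union, mem_ofPred_eq] at *
    tauto
  · intro H hH
    have := h H
    simp only [Sep, mem_inter_iff, mem_ofPred_eq] at *
    tauto

theorem prop4 (a b c d α β : Prop) (h1 : ¬ (a ↔ b)) (h2 : ¬ (c ↔ d))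
    (n1 : ¬ (¬ (a ↔ α) ∧ ¬ (c ↔ β))) (n2 : ¬ (¬ (b ↔ α) ∧ ¬ (d ↔ β)))
    (n3 : ¬ (¬ (a ↔ α) ∧ ¬ (d ↔ β))) (n4 : ¬ (¬ (b ↔ α) ∧ ¬ (c ↔ β))) : False := by
  by_cases a <;> by_cases c <;> by_cases α <;> by_cases β <;> simp_all

theorem dd_four (hs : ∀ u v, A u v → A v u) (hc : ∀ u v, ReflTransGen A u v) (x y z w : V) :
    dd A κ x y + dd A κ z w ≤ dd A κ x z + dd A κ y w ∨
      dd A κ x y + dd A κ z w ≤ dd A κ x w + dd A κ y z := by
  by_cases h : ∀ H, HS A κ H → ¬ ((x ∈ H ↔ z ∈ H) ∧ (y ∈ H ↔ w ∈ H) ∧ ¬ (x ∈ H ↔ y ∈ H))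
  · exact Or.inl (dd_four_aux hs hc x y z w h)
  · right
    rw [dd_comm z w]
    refine dd_four_aux hs hc x y w z fun H' hH' k => h fun H hH k' => ?_
    have ne : H ≠ H' := by
      rintro rfl
      tauto
    obtain ⟨α, β, n⟩ := nested hs hc hH hH' ne
    have n3 := n z
    have n4 := n w
    rw [← k'.1, ← k.2.1] at n3
    rw [← k'.2.1, ← k.1] at n4
    exact prop4 _ _ _ _ _ _ k'.2.2 k.2.2 (n x) (n y) n3 n4

theorem Comp.col {u v : V} (c : Comp A κ u v) : κ u ↔ κ v := by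
  induction c with
  | refl => rfl
  | tail _ s ih => exact ih.trans s.2

theorem geod (hs : ∀ u v, A u v → A v u) (hc : ∀ u v, ReflTransGen A u v) (h1 : H1 A) {u v : V}
    (hn : ¬ Comp A κ u v) :
    ∃ m, ¬ (κ m ↔ κ u) ∧ dd A κ u m = 1 ∧ dd A κ u v = dd A κ m v + 1 := by
  have ex : ∀ x, ReflTransGen A v x →
      (¬ Comp A κ u x ∧ ReflTransGen (fun a b => A a b ∧ ¬ Comp A κ u a ∧ ¬ Comp A κ u b) v x) ∨
      ∃ m p, A m p ∧ ¬ Comp A κ u m ∧ Comp A κ u p ∧
        ReflTransGen (fun a b => A a b ∧ ¬ Comp A κ u a ∧ ¬ Comp A κ u b) v m := by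
    intro x r
    induction r with
    | refl => exact Or.inl ⟨hn, ReflTransGen.refl⟩
    | @tail b c _ s ih =>
      rcases ih with ⟨i1, i2⟩ | ih
      · by_cases k : Comp A κ u c
        · exact Or.inr ⟨b, c, s, i1, k, i2⟩
        · exact Or.inl ⟨k, i2.tail ⟨s, i1, k⟩⟩
      · exact Or.inr ih
  obtain ⟨m, p, a, nm, cp, av⟩ := (ex u (hc v u)).resolve_left fun x => x.1 ReflTransGen.refl
  have col : ¬ (κ p ↔ κ m) := fun x => nm (cp.tail ⟨hs _ _ a, x⟩)
  have main : ∃ H, HS A κ H ∧ ¬ (p ∈ H ↔ m ∈ H) ∧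
      ∀ x y, A x y → x ∉ H → y ∈ H → Comp A κ u x ∨ Comp A κ u y := by
    by_cases k : κ p
    · have b : Bi A κ (m, p) := ⟨a, fun x => col ⟨fun _ => x, fun _ => k⟩, k⟩
      obtain ⟨H, hH⟩ := exists_wit hs h1 b
      have i0 := (hH.2 m p a).2 ReflTransGen.refl
      have ind : ∀ c, Rel A κ (m, p) c → Comp A κ u c.2 := by
        intro c r
        induction r with
        | refl => exact cp
        | @tail b c _ s ih =>
          rcases s.2.2 with ⟨_, x⟩ | ⟨x, _⟩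
          · exact ih.tail ⟨x, ⟨fun _ => s.2.1.2.2, fun _ => s.1.2.2⟩⟩
          · rw [← x]; exact ih
      exact ⟨H, ⟨_, hH⟩, by tauto, fun x y s n1 n2 => Or.inr (ind _ ((hH.2 x y s).1 ⟨n1, n2⟩))⟩
    · have b : Bi A κ (p, m) := ⟨hs _ _ a, k, by tauto⟩
      obtain ⟨H, hH⟩ := exists_wit hs h1 b
      have i0 := (hH.2 p m (hs _ _ a)).2 ReflTransGen.refl
      have ind : ∀ c, Rel A κ (p, m) c → Comp A κ u c.1 := by
        intro c r
        induction r with
        | refl => exact cp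
        | @tail b c _ s ih =>
          rcases s.2.2 with ⟨x, _⟩ | ⟨_, x⟩
          · rw [← x]; exact ih
          · exact ih.tail ⟨x, ⟨fun y => (s.1.2.1 y).elim, fun y => (s.2.1.2.1 y).elim⟩⟩
      exact ⟨H, ⟨_, hH⟩, by tauto, fun x y s n1 n2 => Or.inl (ind _ ((hH.2 x y s).1 ⟨n1, n2⟩))⟩
  obtain ⟨H, hH, sp, tq⟩ := main
  have vm : v ∈ H ↔ m ∈ H := by
    clear a nm col sp
    induction av with
    | refl => rfl
    | @tail b c _ s ih =>
      have t1 := tq b c s.1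
      have t2 := tq c b (hs _ _ s.1)
      have := s.2
      tauto
  have up := hH.comp hs cp
  have s1 : Sep A κ u m = {H} := by
    ext H'
    constructor
    · intro h'
      have := h'.1.comp hs cp
      have h2 := h'.2
      exact h'.1.uniq hs hc hH a (by tauto) (by tauto)
    · rintro rfl
      exact ⟨hH, by tauto⟩
  have s2 : Sep A κ u v = insert H (Sep A κ m v) := by
    ext H'
    by_cases e : H' = H
    · subst e
      simp only [mem_insert_iff, true_or, iff_true]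
      exact ⟨hH, by tauto⟩
    · have : H' ∉ Sep A κ u m := by rw [s1]; exact e
      simp only [Sep, mem_ofPred_eq, mem_insert_iff, e, false_or] at *
      tauto
  have s3 : H ∉ Sep A κ m v := fun x => x.2 vm.symm
  have cc := cp.col
  refine ⟨m, by tauto, by rw [dd, s1, Set.ncard_singleton], ?_⟩
  rw [dd, s2, Set.ncard_insert_of_notMem s3 (sep_fin hs hc _ _), dd]

theorem comp_of_dd (hs : ∀ u v, A u v → A v u) (hc : ∀ u v, ReflTransGen A u v) (h1 : H1 A)
    {u v : V} (h : dd A κ u v = 0) : Comp A κ u v := by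
  by_contra hn
  obtain ⟨m, -, -, e⟩ := geod hs hc h1 hn
  omega

theorem dd_of_comp (hs : ∀ u v, A u v → A v u) {u v : V} (c : Comp A κ u v) : dd A κ u v = 0 := by
  have : Sep A κ u v = ∅ := Set.eq_empty_of_forall_notMem fun H hH => hH.2 (hH.1.comp hs c)
  rw [dd, this, Set.ncard_empty]

theorem rel_map (σ : V → V) (hA : ∀ x y, A x y → A (σ x) (σ y)) (hκ : ∀ x, κ (σ x) ↔ κ x)
    {e e' : V × V} (r : Rel A κ e e') : Rel A κ (σ e.1, σ e.2) (σ e'.1, σ e'.2) := by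
  have bi : ∀ e, Bi A κ e → Bi A κ (σ e.1, σ e.2) := fun e b =>
    ⟨hA _ _ b.1, fun x => b.2.1 ((hκ _).1 x), (hκ _).2 b.2.2⟩
  induction r with
  | refl => exact ReflTransGen.refl
  | tail _ s ih =>
    refine ih.tail ⟨bi _ s.1, bi _ s.2.1, ?_⟩
    rcases s.2.2 with ⟨a, b⟩ | ⟨a, b⟩
    · exact Or.inl ⟨congrArg σ a, hA _ _ b⟩
    · exact Or.inr ⟨congrArg σ a, hA _ _ b⟩

theorem dd_map_le (hs : ∀ u v, A u v → A v u) (hc : ∀ u v, ReflTransGen A u v) (σ : V ≃ V)
    (hA : ∀ x y, A (σ x) (σ y) ↔ A x y) (hκ : ∀ x, κ (σ x) ↔ κ x) (u v : V) :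
    dd A κ (σ u) (σ v) ≤ dd A κ u v := by
  have hA' : ∀ x y, A x y → A (σ.symm x) (σ.symm y) := fun x y h => (hA _ _).1 (by simpa using h)
  have hκ' : ∀ x, κ (σ.symm x) ↔ κ x := fun x => by simpa using (hκ (σ.symm x)).symm
  refine Set.ncard_le_ncard_of_injOn (fun H => σ ⁻¹' H) ?_ ?_ (sep_fin hs hc _ _)
  · rintro H ⟨⟨e, he, h⟩, k⟩
    refine ⟨⟨(σ.symm e.1, σ.symm e.2), ⟨hA' _ _ he.1, fun x => he.2.1 ((hκ' _).1 x),
      (hκ' _).2 he.2.2⟩, fun x y a => ?_⟩, k⟩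
    refine (h (σ x) (σ y) ((hA _ _).2 a)).trans ⟨fun r => ?_, fun r => ?_⟩
    · simpa using rel_map σ.symm hA' hκ' r
    · simpa using rel_map σ (fun x y h => (hA x y).2 h) hκ r
  · intro H _ H' _ e
    exact (Set.preimage_injective.2 σ.surjective) e

theorem dd_map (hs : ∀ u v, A u v → A v u) (hc : ∀ u v, ReflTransGen A u v) (σ : V ≃ V)
    (hA : ∀ x y, A (σ x) (σ y) ↔ A x y) (hκ : ∀ x, κ (σ x) ↔ κ x) (u v : V) :
    dd A κ (σ u) (σ v) = dd A κ u v := by
  refine le_antisymm (dd_map_le hs hc σ hA hκ u v) ?_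
  have := dd_map_le hs hc σ.symm (fun x y => by simpa using (hA (σ.symm x) (σ.symm y)).symm)
    (fun x => by simpa using (hκ (σ.symm x)).symm) (σ u) (σ v)
  simpa using this

end tree

end Pool.Agent.H260Z.DAD
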